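import Mathlib

/-!
# Signed complete graphs whose balanced triples have independent rows

A function `G : ℕ → ℕ → Bool` restricted to `{0, ..., n-1}` is thought of as a graph; a triple is
*balanced* if it contains an odd number of edges.  `Ind n G` says that the rows
`e_{ij} + e_{ik} + e_{jk}` of the balanced triples of `{0, ..., n-1}` are linearly independent
(in dual form), `ExtG n G` says that they span.
-/

namespace Pool.Agent.Helper58.Metric

/-- the triple `i j k` contains an odd number of edges of `G` -/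
def bal (G : ℕ → ℕ → Bool) (i j k : ℕ) : Bool := (G i j ^^ G i k) ^^ G j k

/-- independence of the rows of the balanced triples (dual form: every right hand side is
attained) -/
def Ind (n : ℕ) (G : ℕ → ℕ → Bool) : Prop :=
  ∀ g : Finset ℕ → ℝ, ∃ f : ℕ → ℕ → ℝ, (∀ i j, f i j = f j i) ∧
    ∀ i j k, i < n → j < n → k < n → i ≠ j → i ≠ k → j ≠ k → bal G i j k = true →
      f i j + f i k + f j k = g {i, j, k}

/-- the rows of the balanced triples span (dual form: trivial kernel) -/
def ExtG (n : ℕ) (G : ℕ → ℕ → Bool) : Prop :=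
  ∀ f : ℕ → ℕ → ℝ, (∀ i j, f i j = f j i) →
    (∀ i j k, i < n → j < n → k < n → i ≠ j → i ≠ k → j ≠ k → bal G i j k = true →
      f i j + f i k + f j k = 0) → ∀ i j, i < n → j < n → i ≠ j → f i j = 0

/-- the graph `H` on `{0, ..., k-1}` embeds, up to switching, into the graph `G` on
`{0, ..., n-1}` -/
def Rel (k n : ℕ) (H G : ℕ → ℕ → Bool) : Prop :=
  ∃ (φ : ℕ → ℕ) (d : ℕ → Bool), (∀ i, i < k → φ i < n) ∧
    (∀ i j, i < k → j < k → φ i = φ j → i = j) ∧
    ∀ i j, i < k → j < k → i ≠ j → ((G (φ i) (φ j) ^^ d i) ^^ d j) = H i j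

theorem Rel.bal {k : ℕ} {H G : ℕ → ℕ → Bool} {φ : ℕ → ℕ} {d : ℕ → Bool}
    (h : ∀ i j, i < k → j < k → i ≠ j → ((G (φ i) (φ j) ^^ d i) ^^ d j) = H i j)
    {i j l : ℕ} (hi : i < k) (hj : j < k) (hl : l < k) (hij : i ≠ j) (hil : i ≠ l)
    (hjl : j ≠ l) : Metric.bal H i j l = Metric.bal G (φ i) (φ j) (φ l) := by
  unfold Metric.bal
  rw [← h i j hi hj hij, ← h i l hi hl hil, ← h j l hj hl hjl]
  generalize G (φ i) (φ j) = a
  generalize G (φ i) (φ l) = b
  generalize G (φ j) (φ l) = c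
  cases a <;> cases b <;> cases c <;> cases d i <;> cases d j <;> cases d l <;> rfl

theorem Rel.trans {a b c : ℕ} {A B C : ℕ → ℕ → Bool} (h1 : Rel a b A B) (h2 : Rel b c B C) :
    Rel a c A C := by
  obtain ⟨φ, d, h3, h4, h5⟩ := h1
  obtain ⟨ψ, e, h6, h7, h8⟩ := h2
  refine ⟨fun i => ψ (φ i), fun i => (e (φ i) ^^ d i), fun i hi => h6 _ (h3 i hi),
    fun i j hi hj h => h4 i j hi hj (h7 _ _ (h3 i hi) (h3 j hj) h), fun i j hi hj hij => ?_⟩
  have hne : φ i ≠ φ j := fun h => hij (h4 i j hi hj h)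
  rw [← h5 i j hi hj hij, ← h8 _ _ (h3 i hi) (h3 j hj) hne]
  change ((C (ψ (φ i)) (ψ (φ j)) ^^ (e (φ i) ^^ d i)) ^^ (e (φ j) ^^ d j)) = _
  generalize C (ψ (φ i)) (ψ (φ j)) = x
  cases x <;> cases e (φ i) <;> cases e (φ j) <;> cases d i <;> cases d j <;> rfl

theorem Rel.restrict {m n : ℕ} (G : ℕ → ℕ → Bool) (h : m ≤ n) : Rel m n G G :=
  ⟨id, fun _ => false, fun i hi => lt_of_lt_of_le hi h, fun i j _ _ h => h,
    fun i j _ _ _ => by simp⟩

theorem Ind.of_rel {k n : ℕ} {H G : ℕ → ℕ → Bool} (hG : Ind n G) (h : Rel k n H G) :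
    Ind k H := by
  obtain ⟨φ, d, h1, h2, h3⟩ := h
  intro g
  classical
  obtain ⟨f, hf, hf2⟩ := hG (fun T => g ((Finset.range k).filter (fun w => φ w ∈ T)))
  refine ⟨fun i j => f (φ i) (φ j), fun i j => hf _ _, fun i j l hi hj hl hij hil hjl hb => ?_⟩
  have hb2 : Metric.bal G (φ i) (φ j) (φ l) = true := by
    rw [← Rel.bal h3 hi hj hl hij hil hjl]; exact hb
  have := hf2 (φ i) (φ j) (φ l) (h1 i hi) (h1 j hj) (h1 l hl)
    (fun h => hij (h2 _ _ hi hj h)) (fun h => hil (h2 _ _ hi hl h))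
    (fun h => hjl (h2 _ _ hj hl h)) hb2
  rw [this]
  congr 1
  ext w
  simp only [Finset.mem_filter, Finset.mem_range, Finset.mem_insert, Finset.mem_singleton]
  constructor
  · rintro ⟨hw, h | h | h⟩
    · left; exact h2 _ _ hw hi h
    · right; left; exact h2 _ _ hw hj h
    · right; right; exact h2 _ _ hw hl h
  · rintro (h | h | h)
    · subst h; exact ⟨hi, Or.inl rfl⟩
    · subst h; exact ⟨hj, Or.inr (Or.inl rfl)⟩
    · subst h; exact ⟨hl, Or.inr (Or.inr rfl)⟩

theorem ExtG.of_rel {n : ℕ} {H G : ℕ → ℕ → Bool} (hG : ExtG n G) (h : Rel n n H G) :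
    ExtG n H := by
  obtain ⟨φ, d, h1, h2, h3⟩ := h
  classical
  -- an inverse of `φ` on `{0, ..., n-1}`
  have hsurj : ∀ a, a < n → ∃ i, i < n ∧ φ i = a := by
    intro a ha
    have := Finset.surj_on_of_inj_on_of_card_le (s := Finset.range n) (t := Finset.range n)
      (fun i _ => φ i) (fun i hi => Finset.mem_range.2 (h1 i (Finset.mem_range.1 hi)))
      (fun i j hi hj h => h2 i j (Finset.mem_range.1 hi) (Finset.mem_range.1 hj) h) le_rfl a
      (Finset.mem_range.2 ha)
    obtain ⟨i, hi, h⟩ := this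
    exact ⟨i, Finset.mem_range.1 hi, h.symm⟩
  choose! ψ hψ using hsurj
  intro f hf hf2 i j hi hj hij
  have key := hG (fun a b => f (ψ a) (ψ b)) (fun a b => hf _ _) ?_ (φ i) (φ j) (h1 i hi) (h1 j hj)
    (fun h => hij (h2 _ _ hi hj h))
  · have e1 : ψ (φ i) = i := h2 _ _ (hψ _ (h1 i hi)).1 hi (hψ _ (h1 i hi)).2
    have e2 : ψ (φ j) = j := h2 _ _ (hψ _ (h1 j hj)).1 hj (hψ _ (h1 j hj)).2
    simpa only [e1, e2] using key
  · intro a b c ha hb hc hab hac hbc hbal
    obtain ⟨ha1, ha2⟩ := hψ a ha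
    obtain ⟨hb1, hb2⟩ := hψ b hb
    obtain ⟨hc1, hc2⟩ := hψ c hc
    have n1 : ψ a ≠ ψ b := fun h => hab (by rw [← ha2, ← hb2, h])
    have n2 : ψ a ≠ ψ c := fun h => hac (by rw [← ha2, ← hc2, h])
    have n3 : ψ b ≠ ψ c := fun h => hbc (by rw [← hb2, ← hc2, h])
    refine hf2 (ψ a) (ψ b) (ψ c) ha1 hb1 hc1 n1 n2 n3 ?_
    rw [Rel.bal h3 ha1 hb1 hc1 n1 n2 n3, ha2, hb2, hc2]
    exact hbal

/-! ### graphs given by bit masks -/

/-- the index of the pair `i, j` -/
def pidx (i j : ℕ) : ℕ := if i < j then j * (j - 1) / 2 + i else i * (i - 1) / 2 + j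

/-- the graph coded by the number `g` -/
def adj (g i j : ℕ) : Bool := Nat.testBit g (pidx i j)

theorem pidx_comm {i j : ℕ} (h : i ≠ j) : pidx i j = pidx j i := by
  unfold pidx
  rcases Nat.lt_or_ge i j with h1 | h1
  · rw [if_pos h1, if_neg (by omega)]
  · rw [if_neg (by omega), if_pos (by omega)]

theorem adj_comm {g i j : ℕ} (h : i ≠ j) : adj g i j = adj g j i := by
  unfold adj; rw [pidx_comm h]

theorem tri_succ (m : ℕ) : (m + 1) * (m + 1 - 1) / 2 = m * (m - 1) / 2 + m := by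
  rcases m with _ | m
  · rfl
  · have : (m + 1 + 1) * (m + 1 + 1 - 1) = (m + 1) * (m + 1 - 1) + 2 * (m + 1) := by
      simp only [Nat.add_sub_cancel]; ring
    rw [this, Nat.add_mul_div_left _ _ (by norm_num)]

theorem tri_mono {a b : ℕ} (h : a ≤ b) : a * (a - 1) / 2 ≤ b * (b - 1) / 2 := by
  induction h with
  | refl => exact le_rfl
  | step h ih => rw [tri_succ]; omega

theorem pidx_lt {i j m : ℕ} (hij : i ≠ j) (hi : i < m) (hj : j < m) :
    pidx i j < m * (m - 1) / 2 := by
  unfold pidx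
  split_ifs with h
  · have h1 := tri_mono (show j + 1 ≤ m from hj)
    rw [tri_succ] at h1
    omega
  · have h1 := tri_mono (show i + 1 ≤ m from hi)
    rw [tri_succ] at h1
    omega

/-- appending a new vertex -/
theorem adj_extend_old {H b m : ℕ} (hH : H < 2 ^ (m * (m - 1) / 2)) {i j : ℕ} (hij : i ≠ j)
    (hi : i < m) (hj : j < m) : adj (2 ^ (m * (m - 1) / 2) * b + H) i j = adj H i j := by
  unfold adj
  rw [Nat.testBit_two_pow_mul_add _ hH, if_pos (pidx_lt hij hi hj)]

theorem adj_extend_new {H b m : ℕ} (hH : H < 2 ^ (m * (m - 1) / 2)) {i : ℕ}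
    (hi : i < m) : adj (2 ^ (m * (m - 1) / 2) * b + H) i m = b.testBit i := by
  unfold adj
  have : pidx i m = m * (m - 1) / 2 + i := by unfold pidx; rw [if_pos hi]
  rw [Nat.testBit_two_pow_mul_add _ hH, this, if_neg (by omega)]
  congr 1
  omega

/-- Every graph whose restriction to the first `m` points is, up to relabelling and switching,
coded by `H`, is itself up to relabelling and switching coded by an extension of `H` in which the
new vertex `m` is not adjacent to `0`. -/
theorem exists_extension {m H : ℕ} (hm : 1 ≤ m) (hH : H < 2 ^ (m * (m - 1) / 2))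
    {G : ℕ → ℕ → Bool} (hG : ∀ i j, i ≠ j → G i j = G j i) (h : Rel m m (adj H) G) :
    ∃ b, b < 2 ^ (m - 1) ∧
      Rel (m + 1) (m + 1) (adj (2 ^ (m * (m - 1) / 2) * (2 * b) + H)) G := by
  obtain ⟨φ, d, h1, h2, h3⟩ := h
  let φ' : ℕ → ℕ := fun i => if i < m then φ i else m
  let d' : ℕ → Bool := fun i => if i < m then d i else (G (φ 0) m ^^ d 0)
  let B : Fin m → Bool := fun i => ((G (φ i) m ^^ d i) ^^ (G (φ 0) m ^^ d 0))
  have hB0 : (Nat.ofBits B).testBit 0 = false := by
    rw [Nat.testBit_ofBits_lt _ _ hm]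
    simp only [B]
    cases G (φ 0) m ^^ d 0 <;> rfl
  have heven : Nat.ofBits B = 2 * (Nat.ofBits B / 2) := by
    have : Nat.ofBits B % 2 = 0 := by
      rw [Nat.testBit_zero] at hB0
      simpa using hB0
    omega
  refine ⟨Nat.ofBits B / 2, ?_, φ', d', ?_, ?_, ?_⟩
  · have h4 : Nat.ofBits B < 2 ^ m := Nat.ofBits_lt_two_pow B
    have h5 : 2 ^ m = 2 * 2 ^ (m - 1) := by
      obtain ⟨k, rfl⟩ : ∃ k, m = k + 1 := ⟨m - 1, by omega⟩
      simp [pow_succ]; ring
    omega
  · intro i hi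
    simp only [φ']
    split_ifs with h
    · exact lt_of_lt_of_le (h1 i h) (by omega)
    · omega
  · intro i j hi hj hij
    simp only [φ'] at hij
    split_ifs at hij with ha hb hb
    · exact h2 i j ha hb hij
    · have := h1 i ha; omega
    · have := h1 j hb; omega
    · omega
  · have main : ∀ i j, i < m + 1 → j < m + 1 → i < j →
        ((G (φ' i) (φ' j) ^^ d' i) ^^ d' j) =
          adj (2 ^ (m * (m - 1) / 2) * (2 * (Nat.ofBits B / 2)) + H) i j := by
      intro i j hi hj hij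
      have hi' : i < m := by omega
      rcases Nat.lt_or_ge j m with hj' | hj'
      · rw [adj_extend_old hH (by omega) hi' hj', ← h3 i j hi' hj' (by omega)]
        simp only [φ', d', if_pos hi', if_pos hj']
      · have hjm : j = m := by omega
        subst hjm
        rw [adj_extend_new hH hi', ← heven, Nat.testBit_ofBits_lt _ _ hi']
        simp only [φ', d', if_pos hi', B]
        simp
    intro i j hi hj hij
    rcases Nat.lt_or_gt_of_ne hij with h | h
    · exact main i j hi hj h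
    · rw [adj_comm hij, ← main j i hj hi h, hG (φ' i) (φ' j)]
      · generalize G (φ' j) (φ' i) = x
        cases x <;> cases d' i <;> cases d' j <;> rfl
      · intro he
        simp only [φ'] at he
        split_ifs at he with ha hb hb
        · exact hij (h2 i j ha hb he)
        · have := h1 i ha; omega
        · have := h1 j hb; omega
        · omega

end Pool.Agent.Helper58.Metric
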