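import Pool.Agent.Helper58.Metric.Enum

/-!
# A graph on `9` points whose balanced triples form a basis has `36` balanced triples
-/

namespace Pool.Agent.Helper58.Metric

open Finset

/-- the pairs `i < j < n`, as `⟨j, i⟩` -/
def pairs (n : ℕ) : Finset (Σ _ : ℕ, ℕ) := (range n).sigma fun j => range j

/-- the balanced triples `i < j < k < n`, as `⟨k, j, i⟩` -/
def balTriples (n : ℕ) (G : ℕ → ℕ → Bool) : Finset (Σ _ : ℕ, Σ _ : ℕ, ℕ) :=
  (range n).sigma fun k => (range k).sigma fun j => (range j).filter fun i => bal G i j k = true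

theorem mem_pairs {n i j : ℕ} : (⟨j, i⟩ : Σ _ : ℕ, ℕ) ∈ pairs n ↔ j < n ∧ i < j := by
  simp [pairs]

theorem mem_balTriples {n i j k : ℕ} {G : ℕ → ℕ → Bool} :
    (⟨k, j, i⟩ : Σ _ : ℕ, Σ _ : ℕ, ℕ) ∈ balTriples n G ↔
      k < n ∧ j < k ∧ i < j ∧ bal G i j k = true := by
  simp [balTriples]

theorem card_balTriples (n code : ℕ) : (balTriples n (adj code)).card = cnt n code := by
  unfold balTriples cnt
  rw [Finset.card_sigma, sumLt_eq]
  refine Finset.sum_congr rfl fun k _ => ?_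
  rw [Finset.card_sigma, sumLt_eq]
  refine Finset.sum_congr rfl fun j _ => ?_
  rw [Finset.card_filter, sumLt_eq]
  refine Finset.sum_congr rfl fun i _ => ?_
  cases bal (adj code) i j k <;> simp

theorem sorted_triple_inj {i j k i' j' k' : ℕ} (h1 : i < j) (h2 : j < k) (h3 : i' < j')
    (h4 : j' < k') (h : ({i, j, k} : Finset ℕ) = {i', j', k'}) : i = i' ∧ j = j' ∧ k = k' := by
  have m1 : i ∈ ({i', j', k'} : Finset ℕ) := by rw [← h]; simp
  have m2 : j ∈ ({i', j', k'} : Finset ℕ) := by rw [← h]; simp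
  have m3 : k ∈ ({i', j', k'} : Finset ℕ) := by rw [← h]; simp
  simp only [Finset.mem_insert, Finset.mem_singleton] at m1 m2 m3
  omega

theorem p1 {n : ℕ} {G : ℕ → ℕ → Bool} (b : ↥(balTriples n G)) :
    (⟨b.1.2.1, b.1.2.2⟩ : Σ _ : ℕ, ℕ) ∈ pairs n := by
  have hb := (mem_balTriples (k := b.1.1) (j := b.1.2.1) (i := b.1.2.2)).1 b.2
  exact mem_pairs.2 ⟨by omega, by omega⟩

theorem p2 {n : ℕ} {G : ℕ → ℕ → Bool} (b : ↥(balTriples n G)) :
    (⟨b.1.1, b.1.2.2⟩ : Σ _ : ℕ, ℕ) ∈ pairs n := by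
  have hb := (mem_balTriples (k := b.1.1) (j := b.1.2.1) (i := b.1.2.2)).1 b.2
  exact mem_pairs.2 ⟨by omega, by omega⟩

theorem p3 {n : ℕ} {G : ℕ → ℕ → Bool} (b : ↥(balTriples n G)) :
    (⟨b.1.1, b.1.2.1⟩ : Σ _ : ℕ, ℕ) ∈ pairs n := by
  have hb := (mem_balTriples (k := b.1.1) (j := b.1.2.1) (i := b.1.2.2)).1 b.2
  exact mem_pairs.2 ⟨by omega, by omega⟩

/-- the evaluation map -/
def evalMap (n : ℕ) (G : ℕ → ℕ → Bool) :
    (↥(pairs n) → ℝ) →ₗ[ℝ] (↥(balTriples n G) → ℝ) where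
  toFun u b := u ⟨_, p1 b⟩ + u ⟨_, p2 b⟩ + u ⟨_, p3 b⟩
  map_add' u v := by funext b; simp only [Pi.add_apply]; ring
  map_smul' c u := by
    funext b; simp only [Pi.smul_apply, smul_eq_mul, RingHom.id_apply]; ring

theorem evalMap_apply {n : ℕ} {G : ℕ → ℕ → Bool} (u : ↥(pairs n) → ℝ)
    (b : ↥(balTriples n G)) : evalMap n G u b = u ⟨_, p1 b⟩ + u ⟨_, p2 b⟩ + u ⟨_, p3 b⟩ := rfl

/-- symmetric extension of a function on the pairs -/
noncomputable def extend (n : ℕ) (u : ↥(pairs n) → ℝ) (i j : ℕ) : ℝ :=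
  if h : j < n ∧ i < j then u ⟨⟨j, i⟩, mem_pairs.2 h⟩
  else if h : i < n ∧ j < i then u ⟨⟨i, j⟩, mem_pairs.2 h⟩ else 0

theorem extend_comm (n : ℕ) (u : ↥(pairs n) → ℝ) (i j : ℕ) :
    extend n u i j = extend n u j i := by
  unfold extend
  by_cases h1 : j < n ∧ i < j
  · have h2 : ¬ (i < n ∧ j < i) := by omega
    rw [dif_pos h1, dif_neg h2, dif_pos h1]
  · by_cases h2 : i < n ∧ j < i
    · rw [dif_neg h1, dif_pos h2, dif_pos h2]
    · rw [dif_neg h1, dif_neg h2, dif_neg h2, dif_neg h1]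

theorem extend_of_lt {n : ℕ} (u : ↥(pairs n) → ℝ) {i j : ℕ} (hj : j < n) (hi : i < j) :
    extend n u i j = u ⟨⟨j, i⟩, mem_pairs.2 ⟨hj, hi⟩⟩ := by
  unfold extend
  rw [dif_pos ⟨hj, hi⟩]

theorem bal_perm1 {G : ℕ → ℕ → Bool} (hG : ∀ i j, i ≠ j → G i j = G j i) {i j k : ℕ}
    (hij : i ≠ j) : bal G i j k = bal G j i k := by
  unfold bal
  rw [hG i j hij]
  generalize G j i = a
  generalize G i k = b
  generalize G j k = c
  cases a <;> cases b <;> cases c <;> rfl

theorem bal_perm2 {G : ℕ → ℕ → Bool} (hG : ∀ i j, i ≠ j → G i j = G j i) {i j k : ℕ}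
    (hjk : j ≠ k) : bal G i j k = bal G i k j := by
  unfold bal
  rw [hG j k hjk]
  generalize G i j = a
  generalize G i k = b
  generalize G k j = c
  cases a <;> cases b <;> cases c <;> rfl

theorem evalMap_injective {n : ℕ} {G : ℕ → ℕ → Bool} (hG : ∀ i j, i ≠ j → G i j = G j i)
    (h : ExtG n G) : Function.Injective (evalMap n G) := by
  rw [← LinearMap.ker_eq_bot, LinearMap.ker_eq_bot']
  intro u hu
  -- the equations for sorted triples
  have hs : ∀ i j k, i < j → j < k → k < n → bal G i j k = true →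
      extend n u i j + extend n u i k + extend n u j k = 0 := by
    intro i j k h1 h2 h3 h4
    have := congrFun hu ⟨⟨k, j, i⟩, mem_balTriples.2 ⟨h3, h2, h1, h4⟩⟩
    rw [evalMap_apply] at this
    rw [extend_of_lt u (by omega) h1, extend_of_lt u h3 (by omega), extend_of_lt u h3 h2]
    exact this
  have hall := h (extend n u) (extend_comm n u) ?_
  · funext p
    obtain ⟨⟨j, i⟩, hp⟩ := p
    have hp' := mem_pairs.1 hp
    have := hall i j (by omega) hp'.1 (by omega)
    rw [extend_of_lt u hp'.1 hp'.2] at this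
    simpa using this
  · intro i j k hi hj hk hij hik hjk hb
    have c := extend_comm n u
    rcases Nat.lt_or_gt_of_ne hij with a1 | a1 <;> rcases Nat.lt_or_gt_of_ne hjk with a2 | a2 <;>
      rcases Nat.lt_or_gt_of_ne hik with a3 | a3
    · exact hs i j k a1 a2 hk hb
    · omega
    · -- i < k < j
      have := hs i k j a3 a2 hj (by rw [← bal_perm2 hG hjk]; exact hb)
      rw [c k j] at this; linarith
    · -- k < i < j
      have := hs k i j a3 a1 hj (by
        rw [← bal_perm1 hG (by omega), ← bal_perm2 hG (by omega)]; exact hb)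
      rw [c k i, c k j] at this; linarith
    · -- j < i < k
      have := hs j i k a1 a3 hk (by rw [← bal_perm1 hG hij]; exact hb)
      rw [c j i] at this; linarith
    · -- j < k < i
      have := hs j k i a2 a3 hi (by
        rw [← bal_perm2 hG (by omega), ← bal_perm1 hG (by omega)]; exact hb)
      rw [c j i, c k i] at this; linarith
    · omega
    · -- k < j < i
      have := hs k j i a2 a1 hi (by
        rw [← bal_perm2 hG (by omega), ← bal_perm1 hG (by omega), ← bal_perm2 hG (by omega)]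
        exact hb)
      rw [c k j, c k i, c j i] at this; linarith

theorem evalMap_surjective {n : ℕ} {G : ℕ → ℕ → Bool} (h : Ind n G) :
    Function.Surjective (evalMap n G) := by
  classical
  intro w
  let T : ↥(balTriples n G) → Finset ℕ := fun b => {b.1.2.2, b.1.2.1, b.1.1}
  have hT : Function.Injective T := by
    rintro ⟨⟨k, j, i⟩, hb⟩ ⟨⟨k', j', i'⟩, hb'⟩ he
    have h1 := mem_balTriples.1 hb
    have h2 := mem_balTriples.1 hb'
    obtain ⟨rfl, rfl, rfl⟩ := sorted_triple_inj h1.2.2.1 h1.2.1 h2.2.2.1 h2.2.1 he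
    rfl
  obtain ⟨f, hf, hf2⟩ := h (fun S => if hS : ∃ b, T b = S then w hS.choose else 0)
  refine ⟨fun p => f p.1.2 p.1.1, ?_⟩
  funext b
  have hb := b.2
  obtain ⟨⟨k, j, i⟩, hb'⟩ := b
  have h1 := mem_balTriples.1 hb'
  have h2 := hf2 i j k (by omega) (by omega) (by omega) (by omega) (by omega) (by omega)
    h1.2.2.2
  have h3 : ∃ b, T b = ({i, j, k} : Finset ℕ) := ⟨⟨⟨k, j, i⟩, hb'⟩, rfl⟩
  rw [dif_pos h3] at h2
  have h4 : h3.choose = (⟨⟨k, j, i⟩, hb'⟩ : ↥(balTriples n G)) := hT h3.choose_spec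
  rw [h4] at h2
  rw [evalMap_apply]
  exact h2

theorem cnt_eq {n code : ℕ} (hI : Ind n (adj code)) (hE : ExtG n (adj code)) :
    cnt n code = (pairs n).card := by
  have e := LinearEquiv.ofBijective (evalMap n (adj code))
    ⟨evalMap_injective (fun i j hij => adj_comm hij) hE, evalMap_surjective hI⟩
  have := e.finrank_eq
  rw [Module.finrank_fintype_fun_eq_card, Module.finrank_fintype_fun_eq_card,
    Fintype.card_coe, Fintype.card_coe, card_balTriples] at this
  exact this.symm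

end Pool.Agent.Helper58.Metric
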