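import Mathlib

/-!
# The metric polytope
-/

namespace Pool.Agent.Helper58.Metric

/-- The coordinates of the metric polytope: the pairs `i < j` of indices. -/
abbrev Pair (n : ℕ) : Type := {p : Fin n × Fin n // p.1 < p.2}

/-- The coordinate `x_{ij}` of `x`, with `x_{ji} = x_{ij}` (and the value `0` if `i = j`). -/
def coord {n : ℕ} (x : Pair n → ℝ) (i j : Fin n) : ℝ :=
  if h : i < j then x ⟨(i, j), h⟩ else if h : j < i then x ⟨(j, i), h⟩ else 0

/-- The metric polytope `m_n`: all `x` with `x_{ij} - x_{ik} - x_{jk} ≤ 0` and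
`x_{ij} + x_{ik} + x_{jk} ≤ 2` for every triple of distinct indices. -/
def metricPolytope (n : ℕ) : Set (Pair n → ℝ) :=
  {x | ∀ i j k : Fin n, i ≠ j → i ≠ k → j ≠ k →
    coord x i j - coord x i k - coord x j k ≤ 0 ∧ coord x i j + coord x i k + coord x j k ≤ 2}

/-- The facets of `m_n`: the subsets of `m_n` on which one of the triangle inequalities is an
equality. -/
def facets (n : ℕ) : Set (Set (Pair n → ℝ)) :=
  {F | ∃ i j k : Fin n, i ≠ j ∧ i ≠ k ∧ j ≠ k ∧
    (F = {x | x ∈ metricPolytope n ∧ coord x i j - coord x i k - coord x j k = 0} ∨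
     F = {x | x ∈ metricPolytope n ∧ coord x i j + coord x i k + coord x j k = 2})}

/-- The incidence of a point `v`: the number of facets of `m_n` containing `v`. -/
noncomputable def incidence {n : ℕ} (v : Pair n → ℝ) : ℕ := {F | F ∈ facets n ∧ v ∈ F}.ncard

end Pool.Agent.Helper58.Metric
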