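import Pool.Agent.Helper58.Metric.Core

/-!
# Nine graphs whose balanced triples have dependent rows
-/

set_option maxRecDepth 20000

namespace Pool.Agent.Helper58.Metric

theorem dep_6_6528 : ¬ Ind 6 (adj 6528) := by
  intro h
  obtain ⟨f, -, hf⟩ := h (fun T => if T = ({0, 1, 4} : Finset ℕ) then 1 else 0)
  have h0 : f 0 1 + f 0 4 + f 1 4 = 1 :=
    (hf 0 1 4 (by norm_num) (by norm_num) (by norm_num) (by norm_num) (by norm_num)
      (by norm_num) (by decide +kernel)).trans (if_pos rfl)
  have h1 : f 0 1 + f 0 5 + f 1 5 = 0 :=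
    (hf 0 1 5 (by norm_num) (by norm_num) (by norm_num) (by norm_num) (by norm_num)
      (by norm_num) (by decide +kernel)).trans (if_neg (by decide))
  have h2 : f 0 2 + f 0 4 + f 2 4 = 0 :=
    (hf 0 2 4 (by norm_num) (by norm_num) (by norm_num) (by norm_num) (by norm_num)
      (by norm_num) (by decide +kernel)).trans (if_neg (by decide))
  have h3 : f 0 2 + f 0 5 + f 2 5 = 0 :=
    (hf 0 2 5 (by norm_num) (by norm_num) (by norm_num) (by norm_num) (by norm_num)
      (by norm_num) (by decide +kernel)).trans (if_neg (by decide))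
  have h4 : f 1 3 + f 1 4 + f 3 4 = 0 :=
    (hf 1 3 4 (by norm_num) (by norm_num) (by norm_num) (by norm_num) (by norm_num)
      (by norm_num) (by decide +kernel)).trans (if_neg (by decide))
  have h5 : f 1 3 + f 1 5 + f 3 5 = 0 :=
    (hf 1 3 5 (by norm_num) (by norm_num) (by norm_num) (by norm_num) (by norm_num)
      (by norm_num) (by decide +kernel)).trans (if_neg (by decide))
  have h6 : f 2 3 + f 2 4 + f 3 4 = 0 :=
    (hf 2 3 4 (by norm_num) (by norm_num) (by norm_num) (by norm_num) (by norm_num)
      (by norm_num) (by decide +kernel)).trans (if_neg (by decide))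
  have h7 : f 2 3 + f 2 5 + f 3 5 = 0 :=
    (hf 2 3 5 (by norm_num) (by norm_num) (by norm_num) (by norm_num) (by norm_num)
      (by norm_num) (by decide +kernel)).trans (if_neg (by decide))
  have hc : (0 : ℝ) = 1 := by
    linear_combination (1) * h0 + (-1) * h1 + (-1) * h2 + (1) * h3 + (-1) * h4 + (1) * h5 + (1) * h6 + (-1) * h7
  norm_num at hc

theorem dep_6_22912 : ¬ Ind 6 (adj 22912) := by
  intro h
  obtain ⟨f, -, hf⟩ := h (fun T => if T = ({0, 1, 4} : Finset ℕ) then 1 else 0)
  have h0 : f 0 1 + f 0 4 + f 1 4 = 1 :=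
    (hf 0 1 4 (by norm_num) (by norm_num) (by norm_num) (by norm_num) (by norm_num)
      (by norm_num) (by decide +kernel)).trans (if_pos rfl)
  have h1 : f 0 1 + f 0 5 + f 1 5 = 0 :=
    (hf 0 1 5 (by norm_num) (by norm_num) (by norm_num) (by norm_num) (by norm_num)
      (by norm_num) (by decide +kernel)).trans (if_neg (by decide))
  have h2 : f 0 2 + f 0 4 + f 2 4 = 0 :=
    (hf 0 2 4 (by norm_num) (by norm_num) (by norm_num) (by norm_num) (by norm_num)
      (by norm_num) (by decide +kernel)).trans (if_neg (by decide))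
  have h3 : f 0 2 + f 0 5 + f 2 5 = 0 :=
    (hf 0 2 5 (by norm_num) (by norm_num) (by norm_num) (by norm_num) (by norm_num)
      (by norm_num) (by decide +kernel)).trans (if_neg (by decide))
  have h4 : f 1 3 + f 1 4 + f 3 4 = 0 :=
    (hf 1 3 4 (by norm_num) (by norm_num) (by norm_num) (by norm_num) (by norm_num)
      (by norm_num) (by decide +kernel)).trans (if_neg (by decide))
  have h5 : f 1 3 + f 1 5 + f 3 5 = 0 :=
    (hf 1 3 5 (by norm_num) (by norm_num) (by norm_num) (by norm_num) (by norm_num)
      (by norm_num) (by decide +kernel)).trans (if_neg (by decide))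
  have h6 : f 2 3 + f 2 4 + f 3 4 = 0 :=
    (hf 2 3 4 (by norm_num) (by norm_num) (by norm_num) (by norm_num) (by norm_num)
      (by norm_num) (by decide +kernel)).trans (if_neg (by decide))
  have h7 : f 2 3 + f 2 5 + f 3 5 = 0 :=
    (hf 2 3 5 (by norm_num) (by norm_num) (by norm_num) (by norm_num) (by norm_num)
      (by norm_num) (by decide +kernel)).trans (if_neg (by decide))
  have hc : (0 : ℝ) = 1 := by
    linear_combination (1) * h0 + (-1) * h1 + (-1) * h2 + (1) * h3 + (-1) * h4 + (1) * h5 + (1) * h6 + (-1) * h7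
  norm_num at hc

theorem dep_6_30992 : ¬ Ind 6 (adj 30992) := by
  intro h
  obtain ⟨f, -, hf⟩ := h (fun T => if T = ({0, 1, 3} : Finset ℕ) then 1 else 0)
  have h0 : f 0 1 + f 0 3 + f 1 3 = 1 :=
    (hf 0 1 3 (by norm_num) (by norm_num) (by norm_num) (by norm_num) (by norm_num)
      (by norm_num) (by decide +kernel)).trans (if_pos rfl)
  have h1 : f 0 1 + f 0 5 + f 1 5 = 0 :=
    (hf 0 1 5 (by norm_num) (by norm_num) (by norm_num) (by norm_num) (by norm_num)
      (by norm_num) (by decide +kernel)).trans (if_neg (by decide))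
  have h2 : f 0 2 + f 0 4 + f 2 4 = 0 :=
    (hf 0 2 4 (by norm_num) (by norm_num) (by norm_num) (by norm_num) (by norm_num)
      (by norm_num) (by decide +kernel)).trans (if_neg (by decide))
  have h3 : f 0 2 + f 0 5 + f 2 5 = 0 :=
    (hf 0 2 5 (by norm_num) (by norm_num) (by norm_num) (by norm_num) (by norm_num)
      (by norm_num) (by decide +kernel)).trans (if_neg (by decide))
  have h4 : f 0 3 + f 0 5 + f 3 5 = 0 :=
    (hf 0 3 5 (by norm_num) (by norm_num) (by norm_num) (by norm_num) (by norm_num)
      (by norm_num) (by decide +kernel)).trans (if_neg (by decide))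
  have h5 : f 0 4 + f 0 5 + f 4 5 = 0 :=
    (hf 0 4 5 (by norm_num) (by norm_num) (by norm_num) (by norm_num) (by norm_num)
      (by norm_num) (by decide +kernel)).trans (if_neg (by decide))
  have h6 : f 1 2 + f 1 3 + f 2 3 = 0 :=
    (hf 1 2 3 (by norm_num) (by norm_num) (by norm_num) (by norm_num) (by norm_num)
      (by norm_num) (by decide +kernel)).trans (if_neg (by decide))
  have h7 : f 1 2 + f 1 4 + f 2 4 = 0 :=
    (hf 1 2 4 (by norm_num) (by norm_num) (by norm_num) (by norm_num) (by norm_num)
      (by norm_num) (by decide +kernel)).trans (if_neg (by decide))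
  have h8 : f 1 3 + f 1 4 + f 3 4 = 0 :=
    (hf 1 3 4 (by norm_num) (by norm_num) (by norm_num) (by norm_num) (by norm_num)
      (by norm_num) (by decide +kernel)).trans (if_neg (by decide))
  have h9 : f 1 3 + f 1 5 + f 3 5 = 0 :=
    (hf 1 3 5 (by norm_num) (by norm_num) (by norm_num) (by norm_num) (by norm_num)
      (by norm_num) (by decide +kernel)).trans (if_neg (by decide))
  have h10 : f 2 3 + f 2 4 + f 3 4 = 0 :=
    (hf 2 3 4 (by norm_num) (by norm_num) (by norm_num) (by norm_num) (by norm_num)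
      (by norm_num) (by decide +kernel)).trans (if_neg (by decide))
  have h11 : f 2 4 + f 2 5 + f 4 5 = 0 :=
    (hf 2 4 5 (by norm_num) (by norm_num) (by norm_num) (by norm_num) (by norm_num)
      (by norm_num) (by decide +kernel)).trans (if_neg (by decide))
  have hc : (0 : ℝ) = -1 := by
    linear_combination (-1) * h0 + (1) * h1 + (1) * h2 + (-1) * h3 + (1) * h4 + (-1) * h5 + (1) * h6 + (-1) * h7 + (1) * h8 + (-1) * h9 + (-1) * h10 + (1) * h11
  norm_num at hc

theorem dep_6_27280 : ¬ Ind 6 (adj 27280) := by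
  intro h
  obtain ⟨f, -, hf⟩ := h (fun T => if T = ({0, 1, 3} : Finset ℕ) then 1 else 0)
  have h0 : f 0 1 + f 0 3 + f 1 3 = 1 :=
    (hf 0 1 3 (by norm_num) (by norm_num) (by norm_num) (by norm_num) (by norm_num)
      (by norm_num) (by decide +kernel)).trans (if_pos rfl)
  have h1 : f 0 1 + f 0 5 + f 1 5 = 0 :=
    (hf 0 1 5 (by norm_num) (by norm_num) (by norm_num) (by norm_num) (by norm_num)
      (by norm_num) (by decide +kernel)).trans (if_neg (by decide))
  have h2 : f 0 3 + f 0 4 + f 3 4 = 0 :=
    (hf 0 3 4 (by norm_num) (by norm_num) (by norm_num) (by norm_num) (by norm_num)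
      (by norm_num) (by decide +kernel)).trans (if_neg (by decide))
  have h3 : f 0 4 + f 0 5 + f 4 5 = 0 :=
    (hf 0 4 5 (by norm_num) (by norm_num) (by norm_num) (by norm_num) (by norm_num)
      (by norm_num) (by decide +kernel)).trans (if_neg (by decide))
  have h4 : f 1 2 + f 1 3 + f 2 3 = 0 :=
    (hf 1 2 3 (by norm_num) (by norm_num) (by norm_num) (by norm_num) (by norm_num)
      (by norm_num) (by decide +kernel)).trans (if_neg (by decide))
  have h5 : f 1 2 + f 1 5 + f 2 5 = 0 :=
    (hf 1 2 5 (by norm_num) (by norm_num) (by norm_num) (by norm_num) (by norm_num)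
      (by norm_num) (by decide +kernel)).trans (if_neg (by decide))
  have h6 : f 2 3 + f 2 4 + f 3 4 = 0 :=
    (hf 2 3 4 (by norm_num) (by norm_num) (by norm_num) (by norm_num) (by norm_num)
      (by norm_num) (by decide +kernel)).trans (if_neg (by decide))
  have h7 : f 2 4 + f 2 5 + f 4 5 = 0 :=
    (hf 2 4 5 (by norm_num) (by norm_num) (by norm_num) (by norm_num) (by norm_num)
      (by norm_num) (by decide +kernel)).trans (if_neg (by decide))
  have hc : (0 : ℝ) = 1 := by
    linear_combination (1) * h0 + (-1) * h1 + (-1) * h2 + (1) * h3 + (-1) * h4 + (1) * h5 + (1) * h6 + (-1) * h7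
  norm_num at hc

theorem dep_6_31668 : ¬ Ind 6 (adj 31668) := by
  intro h
  obtain ⟨f, -, hf⟩ := h (fun T => if T = ({0, 1, 3} : Finset ℕ) then 1 else 0)
  have h0 : f 0 1 + f 0 3 + f 1 3 = 1 :=
    (hf 0 1 3 (by norm_num) (by norm_num) (by norm_num) (by norm_num) (by norm_num)
      (by norm_num) (by decide +kernel)).trans (if_pos rfl)
  have h1 : f 0 1 + f 0 5 + f 1 5 = 0 :=
    (hf 0 1 5 (by norm_num) (by norm_num) (by norm_num) (by norm_num) (by norm_num)
      (by norm_num) (by decide +kernel)).trans (if_neg (by decide))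
  have h2 : f 0 2 + f 0 3 + f 2 3 = 0 :=
    (hf 0 2 3 (by norm_num) (by norm_num) (by norm_num) (by norm_num) (by norm_num)
      (by norm_num) (by decide +kernel)).trans (if_neg (by decide))
  have h3 : f 0 2 + f 0 5 + f 2 5 = 0 :=
    (hf 0 2 5 (by norm_num) (by norm_num) (by norm_num) (by norm_num) (by norm_num)
      (by norm_num) (by decide +kernel)).trans (if_neg (by decide))
  have h4 : f 1 3 + f 1 4 + f 3 4 = 0 :=
    (hf 1 3 4 (by norm_num) (by norm_num) (by norm_num) (by norm_num) (by norm_num)
      (by norm_num) (by decide +kernel)).trans (if_neg (by decide))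
  have h5 : f 1 4 + f 1 5 + f 4 5 = 0 :=
    (hf 1 4 5 (by norm_num) (by norm_num) (by norm_num) (by norm_num) (by norm_num)
      (by norm_num) (by decide +kernel)).trans (if_neg (by decide))
  have h6 : f 2 3 + f 2 4 + f 3 4 = 0 :=
    (hf 2 3 4 (by norm_num) (by norm_num) (by norm_num) (by norm_num) (by norm_num)
      (by norm_num) (by decide +kernel)).trans (if_neg (by decide))
  have h7 : f 2 4 + f 2 5 + f 4 5 = 0 :=
    (hf 2 4 5 (by norm_num) (by norm_num) (by norm_num) (by norm_num) (by norm_num)
      (by norm_num) (by decide +kernel)).trans (if_neg (by decide))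
  have hc : (0 : ℝ) = -1 := by
    linear_combination (-1) * h0 + (1) * h1 + (1) * h2 + (-1) * h3 + (1) * h4 + (-1) * h5 + (-1) * h6 + (1) * h7
  norm_num at hc

theorem dep_7_928128 : ¬ Ind 7 (adj 928128) := by
  intro h
  obtain ⟨f, -, hf⟩ := h (fun T => if T = ({0, 1, 4} : Finset ℕ) then 1 else 0)
  have h0 : f 0 1 + f 0 4 + f 1 4 = 1 :=
    (hf 0 1 4 (by norm_num) (by norm_num) (by norm_num) (by norm_num) (by norm_num)
      (by norm_num) (by decide +kernel)).trans (if_pos rfl)
  have h1 : f 0 1 + f 0 5 + f 1 5 = 0 :=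
    (hf 0 1 5 (by norm_num) (by norm_num) (by norm_num) (by norm_num) (by norm_num)
      (by norm_num) (by decide +kernel)).trans (if_neg (by decide))
  have h2 : f 0 2 + f 0 4 + f 2 4 = 0 :=
    (hf 0 2 4 (by norm_num) (by norm_num) (by norm_num) (by norm_num) (by norm_num)
      (by norm_num) (by decide +kernel)).trans (if_neg (by decide))
  have h3 : f 0 2 + f 0 6 + f 2 6 = 0 :=
    (hf 0 2 6 (by norm_num) (by norm_num) (by norm_num) (by norm_num) (by norm_num)
      (by norm_num) (by decide +kernel)).trans (if_neg (by decide))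
  have h4 : f 0 3 + f 0 5 + f 3 5 = 0 :=
    (hf 0 3 5 (by norm_num) (by norm_num) (by norm_num) (by norm_num) (by norm_num)
      (by norm_num) (by decide +kernel)).trans (if_neg (by decide))
  have h5 : f 0 3 + f 0 6 + f 3 6 = 0 :=
    (hf 0 3 6 (by norm_num) (by norm_num) (by norm_num) (by norm_num) (by norm_num)
      (by norm_num) (by decide +kernel)).trans (if_neg (by decide))
  have h6 : f 1 2 + f 1 5 + f 2 5 = 0 :=
    (hf 1 2 5 (by norm_num) (by norm_num) (by norm_num) (by norm_num) (by norm_num)
      (by norm_num) (by decide +kernel)).trans (if_neg (by decide))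
  have h7 : f 1 2 + f 1 6 + f 2 6 = 0 :=
    (hf 1 2 6 (by norm_num) (by norm_num) (by norm_num) (by norm_num) (by norm_num)
      (by norm_num) (by decide +kernel)).trans (if_neg (by decide))
  have h8 : f 1 3 + f 1 4 + f 3 4 = 0 :=
    (hf 1 3 4 (by norm_num) (by norm_num) (by norm_num) (by norm_num) (by norm_num)
      (by norm_num) (by decide +kernel)).trans (if_neg (by decide))
  have h9 : f 1 3 + f 1 6 + f 3 6 = 0 :=
    (hf 1 3 6 (by norm_num) (by norm_num) (by norm_num) (by norm_num) (by norm_num)
      (by norm_num) (by decide +kernel)).trans (if_neg (by decide))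
  have h10 : f 2 3 + f 2 4 + f 3 4 = 0 :=
    (hf 2 3 4 (by norm_num) (by norm_num) (by norm_num) (by norm_num) (by norm_num)
      (by norm_num) (by decide +kernel)).trans (if_neg (by decide))
  have h11 : f 2 3 + f 2 5 + f 3 5 = 0 :=
    (hf 2 3 5 (by norm_num) (by norm_num) (by norm_num) (by norm_num) (by norm_num)
      (by norm_num) (by decide +kernel)).trans (if_neg (by decide))
  have hc : (0 : ℝ) = 1 := by
    linear_combination (1) * h0 + (-1) * h1 + (-1) * h2 + (1) * h3 + (1) * h4 + (-1) * h5 + (1) * h6 + (-1) * h7 + (-1) * h8 + (1) * h9 + (1) * h10 + (-1) * h11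
  norm_num at hc

theorem dep_7_1784080 : ¬ Ind 7 (adj 1784080) := by
  intro h
  obtain ⟨f, -, hf⟩ := h (fun T => if T = ({0, 1, 3} : Finset ℕ) then 1 else 0)
  have h0 : f 0 1 + f 0 3 + f 1 3 = 1 :=
    (hf 0 1 3 (by norm_num) (by norm_num) (by norm_num) (by norm_num) (by norm_num)
      (by norm_num) (by decide +kernel)).trans (if_pos rfl)
  have h1 : f 0 1 + f 0 6 + f 1 6 = 0 :=
    (hf 0 1 6 (by norm_num) (by norm_num) (by norm_num) (by norm_num) (by norm_num)
      (by norm_num) (by decide +kernel)).trans (if_neg (by decide))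
  have h2 : f 0 2 + f 0 4 + f 2 4 = 0 :=
    (hf 0 2 4 (by norm_num) (by norm_num) (by norm_num) (by norm_num) (by norm_num)
      (by norm_num) (by decide +kernel)).trans (if_neg (by decide))
  have h3 : f 0 2 + f 0 5 + f 2 5 = 0 :=
    (hf 0 2 5 (by norm_num) (by norm_num) (by norm_num) (by norm_num) (by norm_num)
      (by norm_num) (by decide +kernel)).trans (if_neg (by decide))
  have h4 : f 0 3 + f 0 5 + f 3 5 = 0 :=
    (hf 0 3 5 (by norm_num) (by norm_num) (by norm_num) (by norm_num) (by norm_num)
      (by norm_num) (by decide +kernel)).trans (if_neg (by decide))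
  have h5 : f 0 4 + f 0 6 + f 4 6 = 0 :=
    (hf 0 4 6 (by norm_num) (by norm_num) (by norm_num) (by norm_num) (by norm_num)
      (by norm_num) (by decide +kernel)).trans (if_neg (by decide))
  have h6 : f 1 2 + f 1 3 + f 2 3 = 0 :=
    (hf 1 2 3 (by norm_num) (by norm_num) (by norm_num) (by norm_num) (by norm_num)
      (by norm_num) (by decide +kernel)).trans (if_neg (by decide))
  have h7 : f 1 2 + f 1 4 + f 2 4 = 0 :=
    (hf 1 2 4 (by norm_num) (by norm_num) (by norm_num) (by norm_num) (by norm_num)
      (by norm_num) (by decide +kernel)).trans (if_neg (by decide))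
  have h8 : f 1 4 + f 1 5 + f 4 5 = 0 :=
    (hf 1 4 5 (by norm_num) (by norm_num) (by norm_num) (by norm_num) (by norm_num)
      (by norm_num) (by decide +kernel)).trans (if_neg (by decide))
  have h9 : f 1 5 + f 1 6 + f 5 6 = 0 :=
    (hf 1 5 6 (by norm_num) (by norm_num) (by norm_num) (by norm_num) (by norm_num)
      (by norm_num) (by decide +kernel)).trans (if_neg (by decide))
  have h10 : f 2 3 + f 2 6 + f 3 6 = 0 :=
    (hf 2 3 6 (by norm_num) (by norm_num) (by norm_num) (by norm_num) (by norm_num)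
      (by norm_num) (by decide +kernel)).trans (if_neg (by decide))
  have h11 : f 2 5 + f 2 6 + f 5 6 = 0 :=
    (hf 2 5 6 (by norm_num) (by norm_num) (by norm_num) (by norm_num) (by norm_num)
      (by norm_num) (by decide +kernel)).trans (if_neg (by decide))
  have h12 : f 3 4 + f 3 5 + f 4 5 = 0 :=
    (hf 3 4 5 (by norm_num) (by norm_num) (by norm_num) (by norm_num) (by norm_num)
      (by norm_num) (by decide +kernel)).trans (if_neg (by decide))
  have h13 : f 3 4 + f 3 6 + f 4 6 = 0 :=
    (hf 3 4 6 (by norm_num) (by norm_num) (by norm_num) (by norm_num) (by norm_num)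
      (by norm_num) (by decide +kernel)).trans (if_neg (by decide))
  have hc : (0 : ℝ) = 1 := by
    linear_combination (1) * h0 + (-1) * h1 + (-1) * h2 + (1) * h3 + (-1) * h4 + (1) * h5 + (-1) * h6 + (1) * h7 + (-1) * h8 + (1) * h9 + (1) * h10 + (-1) * h11 + (1) * h12 + (-1) * h13
  norm_num at hc

theorem dep_8_252121216 : ¬ Ind 8 (adj 252121216) := by
  intro h
  obtain ⟨f, -, hf⟩ := h (fun T => if T = ({0, 1, 4} : Finset ℕ) then 1 else 0)
  have h0 : f 0 1 + f 0 4 + f 1 4 = 1 :=
    (hf 0 1 4 (by norm_num) (by norm_num) (by norm_num) (by norm_num) (by norm_num)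
      (by norm_num) (by decide +kernel)).trans (if_pos rfl)
  have h1 : f 0 1 + f 0 6 + f 1 6 = 0 :=
    (hf 0 1 6 (by norm_num) (by norm_num) (by norm_num) (by norm_num) (by norm_num)
      (by norm_num) (by decide +kernel)).trans (if_neg (by decide))
  have h2 : f 0 2 + f 0 5 + f 2 5 = 0 :=
    (hf 0 2 5 (by norm_num) (by norm_num) (by norm_num) (by norm_num) (by norm_num)
      (by norm_num) (by decide +kernel)).trans (if_neg (by decide))
  have h3 : f 0 2 + f 0 6 + f 2 6 = 0 :=
    (hf 0 2 6 (by norm_num) (by norm_num) (by norm_num) (by norm_num) (by norm_num)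
      (by norm_num) (by decide +kernel)).trans (if_neg (by decide))
  have h4 : f 0 4 + f 0 7 + f 4 7 = 0 :=
    (hf 0 4 7 (by norm_num) (by norm_num) (by norm_num) (by norm_num) (by norm_num)
      (by norm_num) (by decide +kernel)).trans (if_neg (by decide))
  have h5 : f 0 5 + f 0 7 + f 5 7 = 0 :=
    (hf 0 5 7 (by norm_num) (by norm_num) (by norm_num) (by norm_num) (by norm_num)
      (by norm_num) (by decide +kernel)).trans (if_neg (by decide))
  have h6 : f 1 3 + f 1 4 + f 3 4 = 0 :=
    (hf 1 3 4 (by norm_num) (by norm_num) (by norm_num) (by norm_num) (by norm_num)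
      (by norm_num) (by decide +kernel)).trans (if_neg (by decide))
  have h7 : f 1 3 + f 1 7 + f 3 7 = 0 :=
    (hf 1 3 7 (by norm_num) (by norm_num) (by norm_num) (by norm_num) (by norm_num)
      (by norm_num) (by decide +kernel)).trans (if_neg (by decide))
  have h8 : f 1 5 + f 1 6 + f 5 6 = 0 :=
    (hf 1 5 6 (by norm_num) (by norm_num) (by norm_num) (by norm_num) (by norm_num)
      (by norm_num) (by decide +kernel)).trans (if_neg (by decide))
  have h9 : f 1 5 + f 1 7 + f 5 7 = 0 :=
    (hf 1 5 7 (by norm_num) (by norm_num) (by norm_num) (by norm_num) (by norm_num)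
      (by norm_num) (by decide +kernel)).trans (if_neg (by decide))
  have h10 : f 2 3 + f 2 5 + f 3 5 = 0 :=
    (hf 2 3 5 (by norm_num) (by norm_num) (by norm_num) (by norm_num) (by norm_num)
      (by norm_num) (by decide +kernel)).trans (if_neg (by decide))
  have h11 : f 2 3 + f 2 7 + f 3 7 = 0 :=
    (hf 2 3 7 (by norm_num) (by norm_num) (by norm_num) (by norm_num) (by norm_num)
      (by norm_num) (by decide +kernel)).trans (if_neg (by decide))
  have h12 : f 2 4 + f 2 6 + f 4 6 = 0 :=
    (hf 2 4 6 (by norm_num) (by norm_num) (by norm_num) (by norm_num) (by norm_num)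
      (by norm_num) (by decide +kernel)).trans (if_neg (by decide))
  have h13 : f 2 4 + f 2 7 + f 4 7 = 0 :=
    (hf 2 4 7 (by norm_num) (by norm_num) (by norm_num) (by norm_num) (by norm_num)
      (by norm_num) (by decide +kernel)).trans (if_neg (by decide))
  have h14 : f 3 4 + f 3 6 + f 4 6 = 0 :=
    (hf 3 4 6 (by norm_num) (by norm_num) (by norm_num) (by norm_num) (by norm_num)
      (by norm_num) (by decide +kernel)).trans (if_neg (by decide))
  have h15 : f 3 5 + f 3 6 + f 5 6 = 0 :=
    (hf 3 5 6 (by norm_num) (by norm_num) (by norm_num) (by norm_num) (by norm_num)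
      (by norm_num) (by decide +kernel)).trans (if_neg (by decide))
  have hc : (0 : ℝ) = -1 := by
    linear_combination (-1) * h0 + (1) * h1 + (1) * h2 + (-1) * h3 + (1) * h4 + (-1) * h5 + (1) * h6 + (-1) * h7 + (-1) * h8 + (1) * h9 + (-1) * h10 + (1) * h11 + (1) * h12 + (-1) * h13 + (-1) * h14 + (1) * h15
  norm_num at hc

theorem dep_9_29012133888 : ¬ Ind 9 (adj 29012133888) := by
  intro h
  obtain ⟨f, -, hf⟩ := h (fun T => if T = ({0, 1, 5} : Finset ℕ) then 1 else 0)
  have h0 : f 0 1 + f 0 5 + f 1 5 = 1 :=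
    (hf 0 1 5 (by norm_num) (by norm_num) (by norm_num) (by norm_num) (by norm_num)
      (by norm_num) (by decide +kernel)).trans (if_pos rfl)
  have h1 : f 0 1 + f 0 7 + f 1 7 = 0 :=
    (hf 0 1 7 (by norm_num) (by norm_num) (by norm_num) (by norm_num) (by norm_num)
      (by norm_num) (by decide +kernel)).trans (if_neg (by decide))
  have h2 : f 0 2 + f 0 6 + f 2 6 = 0 :=
    (hf 0 2 6 (by norm_num) (by norm_num) (by norm_num) (by norm_num) (by norm_num)
      (by norm_num) (by decide +kernel)).trans (if_neg (by decide))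
  have h3 : f 0 2 + f 0 8 + f 2 8 = 0 :=
    (hf 0 2 8 (by norm_num) (by norm_num) (by norm_num) (by norm_num) (by norm_num)
      (by norm_num) (by decide +kernel)).trans (if_neg (by decide))
  have h4 : f 0 3 + f 0 7 + f 3 7 = 0 :=
    (hf 0 3 7 (by norm_num) (by norm_num) (by norm_num) (by norm_num) (by norm_num)
      (by norm_num) (by decide +kernel)).trans (if_neg (by decide))
  have h5 : f 0 3 + f 0 8 + f 3 8 = 0 :=
    (hf 0 3 8 (by norm_num) (by norm_num) (by norm_num) (by norm_num) (by norm_num)
      (by norm_num) (by decide +kernel)).trans (if_neg (by decide))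
  have h6 : f 0 5 + f 0 8 + f 5 8 = 0 :=
    (hf 0 5 8 (by norm_num) (by norm_num) (by norm_num) (by norm_num) (by norm_num)
      (by norm_num) (by decide +kernel)).trans (if_neg (by decide))
  have h7 : f 0 6 + f 0 8 + f 6 8 = 0 :=
    (hf 0 6 8 (by norm_num) (by norm_num) (by norm_num) (by norm_num) (by norm_num)
      (by norm_num) (by decide +kernel)).trans (if_neg (by decide))
  have h8 : f 1 4 + f 1 5 + f 4 5 = 0 :=
    (hf 1 4 5 (by norm_num) (by norm_num) (by norm_num) (by norm_num) (by norm_num)
      (by norm_num) (by decide +kernel)).trans (if_neg (by decide))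
  have h9 : f 1 4 + f 1 7 + f 4 7 = 0 :=
    (hf 1 4 7 (by norm_num) (by norm_num) (by norm_num) (by norm_num) (by norm_num)
      (by norm_num) (by decide +kernel)).trans (if_neg (by decide))
  have h10 : f 2 4 + f 2 6 + f 4 6 = 0 :=
    (hf 2 4 6 (by norm_num) (by norm_num) (by norm_num) (by norm_num) (by norm_num)
      (by norm_num) (by decide +kernel)).trans (if_neg (by decide))
  have h11 : f 2 4 + f 2 8 + f 4 8 = 0 :=
    (hf 2 4 8 (by norm_num) (by norm_num) (by norm_num) (by norm_num) (by norm_num)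
      (by norm_num) (by decide +kernel)).trans (if_neg (by decide))
  have h12 : f 3 4 + f 3 7 + f 4 7 = 0 :=
    (hf 3 4 7 (by norm_num) (by norm_num) (by norm_num) (by norm_num) (by norm_num)
      (by norm_num) (by decide +kernel)).trans (if_neg (by decide))
  have h13 : f 3 4 + f 3 8 + f 4 8 = 0 :=
    (hf 3 4 8 (by norm_num) (by norm_num) (by norm_num) (by norm_num) (by norm_num)
      (by norm_num) (by decide +kernel)).trans (if_neg (by decide))
  have h14 : f 4 5 + f 4 8 + f 5 8 = 0 :=
    (hf 4 5 8 (by norm_num) (by norm_num) (by norm_num) (by norm_num) (by norm_num)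
      (by norm_num) (by decide +kernel)).trans (if_neg (by decide))
  have h15 : f 4 6 + f 4 8 + f 6 8 = 0 :=
    (hf 4 6 8 (by norm_num) (by norm_num) (by norm_num) (by norm_num) (by norm_num)
      (by norm_num) (by decide +kernel)).trans (if_neg (by decide))
  have hc : (0 : ℝ) = 1 := by
    linear_combination (1) * h0 + (-1) * h1 + (-1) * h2 + (1) * h3 + (1) * h4 + (-1) * h5 + (-1) * h6 + (1) * h7 + (-1) * h8 + (1) * h9 + (1) * h10 + (-1) * h11 + (-1) * h12 + (1) * h13 + (1) * h14 + (-1) * h15
  norm_num at hc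

/-- the list of the nine dependent graphs -/
def deps : List (ℕ × ℕ) :=
  [(6, 6528), (6, 22912), (6, 30992), (6, 27280), (6, 31668), (7, 928128), (7, 1784080), (8, 252121216), (9, 29012133888)]

theorem not_ind_of_mem_deps {t : ℕ × ℕ} (ht : t ∈ deps) : ¬ Ind t.1 (adj t.2) := by
  simp only [deps, List.mem_cons, List.not_mem_nil, or_false] at ht
  rcases ht with rfl | rfl | rfl | rfl | rfl | rfl | rfl | rfl | rfl
  · exact dep_6_6528
  · exact dep_6_22912
  · exact dep_6_30992
  · exact dep_6_27280
  · exact dep_6_31668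
  · exact dep_7_928128
  · exact dep_7_1784080
  · exact dep_8_252121216
  · exact dep_9_29012133888

end Pool.Agent.Helper58.Metric
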