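import Pool.Agent.Helper58.Metric.Dep

/-!
# The inductive enumeration of the graphs with independent balanced triples
-/

namespace Pool.Agent.Helper58.Metric

/-- `P i` holds for all `i < n` -/
def allLt (n : ℕ) (P : ℕ → Bool) : Bool := Nat.rec true (fun i ih => P i && ih) n

theorem allLt_succ (n : ℕ) (P : ℕ → Bool) : allLt (n + 1) P = (P n && allLt n P) := rfl

theorem allLt_spec {n : ℕ} {P : ℕ → Bool} (h : allLt n P = true) : ∀ i, i < n → P i = true := by
  induction n with
  | zero => intro i hi; omega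
  | succ n ih =>
    rw [allLt_succ, Bool.and_eq_true] at h
    intro i hi
    rcases Nat.lt_or_ge i n with h1 | h1
    · exact ih h.2 i h1
    · have : i = n := by omega
      subst this; exact h.1

/-- the sum of `f i`, `i < n` -/
def sumLt (n : ℕ) (f : ℕ → ℕ) : ℕ := Nat.rec 0 (fun i ih => f i + ih) n

theorem sumLt_eq (n : ℕ) (f : ℕ → ℕ) : sumLt n f = ∑ i ∈ Finset.range n, f i := by
  induction n with
  | zero => rfl
  | succ n ih =>
    rw [Finset.sum_range_succ, ← ih]
    change f n + sumLt n f = _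
    ring

/-- the number of balanced triples of the graph coded by `g` on `n` points -/
def cnt (n g : ℕ) : ℕ :=
  sumLt n fun k => sumLt k fun j => sumLt j fun i => Bool.toNat (bal (adj g) i j k)

/-- the `i`-th hexadecimal digit -/
def phi (p i : ℕ) : ℕ := Nat.shiftRight p (4 * i) % 16

/-- certificate check: `i ↦ phi p i` and the switching set coded by `δ` embed the graph `H` on `k`
points into the graph `code` on `n` points -/
def okRel (code n k H p δ : ℕ) : Bool :=
  allLt k fun i => Nat.ble (phi p i + 1) n &&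
    allLt i fun j => (!Nat.beq (phi p j) (phi p i)) &&
      !((((adj code (phi p j) (phi p i)) ^^ Nat.testBit δ j) ^^ Nat.testBit δ i) ^^ adj H j i)

theorem okRel_sound {code n k H p δ : ℕ} (h : okRel code n k H p δ = true) :
    Rel k n (adj H) (adj code) := by
  have h1 := allLt_spec h
  have h2 : ∀ i, i < k → phi p i < n := by
    intro i hi
    have := h1 i hi
    rw [Bool.and_eq_true] at this
    exact Nat.le_of_ble_eq_true this.1
  have h3 : ∀ i j, i < k → j < i → phi p j ≠ phi p i ∧
      ((adj code (phi p j) (phi p i) ^^ Nat.testBit δ j) ^^ Nat.testBit δ i) = adj H j i := by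
    intro i j hi hj
    have := h1 i hi
    rw [Bool.and_eq_true] at this
    have h4 := allLt_spec this.2 j hj
    rw [Bool.and_eq_true] at h4
    refine ⟨?_, ?_⟩
    · have h5 := h4.1
      intro he
      rw [he] at h5
      simp at h5
    · have h5 := h4.2
      generalize ((adj code (phi p j) (phi p i) ^^ Nat.testBit δ j) ^^ Nat.testBit δ i) = x at h5 ⊢
      generalize adj H j i = y at h5 ⊢
      cases x <;> cases y <;> simp_all
  refine ⟨phi p, fun i => Nat.testBit δ i, h2, ?_, ?_⟩
  · intro i j hi hj he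
    rcases Nat.lt_trichotomy i j with h4 | h4 | h4
    · exact absurd he (h3 j i hj h4).1
    · exact h4
    · exact absurd he.symm (h3 i j hi h4).1
  · intro i j hi hj hij
    rcases Nat.lt_or_gt_of_ne hij with h4 | h4
    · exact (h3 j i hj h4).2
    · rw [adj_comm hij, ← (h3 i j hi h4).2, adj_comm ((h3 i j hi h4).1).symm]
      change ((adj code (phi p j) (phi p i) ^^ Nat.testBit δ i) ^^ Nat.testBit δ j) = _
      generalize adj code (phi p j) (phi p i) = x
      cases x <;> cases Nat.testBit δ i <;> cases Nat.testBit δ j <;> rfl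

/-- check one certificate against a list of targets `(number of points, graph)` -/
def chkOne (n : ℕ) (targets : List (ℕ × ℕ)) (code cert : ℕ) : Bool :=
  match targets[cert % 64]? with
  | none => false
  | some t => okRel code n t.1 t.2 (cert / 65536) (cert / 64 % 1024)

theorem chkOne_sound {n : ℕ} {targets : List (ℕ × ℕ)} {code cert : ℕ}
    (h : chkOne n targets code cert = true) :
    ∃ t ∈ targets, Rel t.1 n (adj t.2) (adj code) := by
  unfold chkOne at h
  split at h
  · simp at h
  · rename_i t ht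
    exact ⟨t, List.mem_of_getElem? ht, okRel_sound h⟩

/-- check all certificates of a list; `ok b c` is the check of the `b`-th certificate -/
def chkCerts (ok : ℕ → ℕ → Bool) : List ℕ → ℕ → Bool
  | [], _ => true
  | c :: cs, b => ok b c && chkCerts ok cs (b + 1)

theorem chkCerts_sound {ok : ℕ → ℕ → Bool} {cs : List ℕ} {b : ℕ}
    (h : chkCerts ok cs b = true) : ∀ a, b ≤ a → a < b + cs.length → ∃ c, ok a c = true := by
  induction cs generalizing b with
  | nil => intro a h1 h2; simp at h2; omega
  | cons c cs ih =>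
    simp only [chkCerts, Bool.and_eq_true] at h
    intro a h1 h2
    rcases Nat.eq_or_lt_of_le h1 with h3 | h3
    · subst h3; exact ⟨c, h.1⟩
    · exact ih h.2 a h3 (by simp at h2; omega)

/-- check all extensions of all graphs of a list -/
def chkLevel (m : ℕ) (ok : ℕ → ℕ → ℕ → Bool) : List ℕ → List (List ℕ) → Bool
  | [], _ => true
  | _ :: _, [] => false
  | H :: Hs, cs :: css =>
    (Nat.ble (H + 1) (2 ^ (m * (m - 1) / 2)) && Nat.beq cs.length (2 ^ (m - 1))) &&
      (chkCerts (fun b c => ok H (2 ^ (m * (m - 1) / 2) * (2 * b) + H) c) cs 0 &&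
        chkLevel m ok Hs css)

theorem chkLevel_sound {m : ℕ} {ok : ℕ → ℕ → ℕ → Bool} {Hs : List ℕ} {css : List (List ℕ)}
    (h : chkLevel m ok Hs css = true) : ∀ H ∈ Hs, H < 2 ^ (m * (m - 1) / 2) ∧
      ∀ b, b < 2 ^ (m - 1) → ∃ c, ok H (2 ^ (m * (m - 1) / 2) * (2 * b) + H) c = true := by
  induction Hs generalizing css with
  | nil => intro H hH; simp at hH
  | cons H0 Hs ih =>
    rcases css with _ | ⟨cs, css⟩
    · simp [chkLevel] at h
    · simp only [chkLevel, Bool.and_eq_true] at h
      obtain ⟨⟨h1, h2⟩, h3, h4⟩ := h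
      intro H hH
      rcases List.mem_cons.1 hH with h5 | h5
      · subst h5
        refine ⟨Nat.le_of_ble_eq_true h1, fun b hb => ?_⟩
        exact chkCerts_sound h3 b (Nat.zero_le _) (by
          rw [Nat.eq_of_beq_eq_true h2]; omega)
      · exact ih h4 H h5

/-- every graph on `m` points with independent balanced triples occurs in the list -/
def Cov (m : ℕ) (L : List ℕ) : Prop :=
  ∀ G : ℕ → ℕ → Bool, (∀ i j, i ≠ j → G i j = G j i) → Ind m G →
    ∃ H ∈ L, Rel m m (adj H) G

theorem cov_one : Cov 1 [0] := by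
  intro G hG h
  refine ⟨0, by simp, id, fun _ => false, fun i hi => hi, fun i j _ _ h => h, ?_⟩
  intro i j hi hj hij
  omega

theorem exists_code {m : ℕ} {L : List ℕ} (hm : 1 ≤ m) {ok : ℕ → ℕ → ℕ → Bool}
    {css : List (List ℕ)} (hchk : chkLevel m ok L css = true) (hcov : Cov m L)
    {G : ℕ → ℕ → Bool} (hG : ∀ i j, i ≠ j → G i j = G j i) (hI : Ind (m + 1) G) :
    ∃ H b cert, H < 2 ^ (m * (m - 1) / 2) ∧
      ok H (2 ^ (m * (m - 1) / 2) * (2 * b) + H) cert = true ∧
      Rel (m + 1) (m + 1) (adj (2 ^ (m * (m - 1) / 2) * (2 * b) + H)) G := by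
  obtain ⟨H, hH, hrel⟩ := hcov G hG (hI.of_rel (Rel.restrict G (Nat.le_succ m)))
  obtain ⟨h1, h2⟩ := chkLevel_sound hchk H hH
  obtain ⟨b, hb, hb2⟩ := exists_extension hm h1 hG hrel
  obtain ⟨c, hc⟩ := h2 b hb
  exact ⟨H, b, c, h1, hc, hb2⟩

theorem cov_step {m : ℕ} {L L' : List ℕ} (hm : 1 ≤ m) {css : List (List ℕ)}
    (hchk : chkLevel m (fun _ => chkOne (m + 1) (L'.map (fun H => (m + 1, H)) ++ deps)) L css =
      true)
    (hcov : Cov m L) : Cov (m + 1) L' := by
  intro G hG hI
  obtain ⟨H0, b, cert, -, h1, h2⟩ := exists_code hm hchk hcov hG hI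
  obtain ⟨t, ht, h3⟩ := chkOne_sound h1
  rcases List.mem_append.1 ht with h4 | h4
  · obtain ⟨H, hH, rfl⟩ := List.mem_map.1 h4
    exact ⟨H, hH, h3.trans h2⟩
  · exact absurd ((hI.of_rel h2).of_rel h3) (not_ind_of_mem_deps h4)

end Pool.Agent.Helper58.Metric
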