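import Pool.Agent.Helper58.Metric.Data

set_option maxRecDepth 100000

namespace Pool.Agent.Helper58.Metric

/-- the number of balanced triples containing the last of the `9` points -/
def cntNew (code : ℕ) : ℕ :=
  sumLt 8 fun j => sumLt j fun i => Bool.toNat (bal (adj code) i j 8)

/-- the final check: the graph `code` on `9` points has a number of balanced triples different
from `36`, or contains one of the dependent graphs -/
def okFinal (H code cert : ℕ) : Bool :=
  (!Nat.beq (cntNew code + cnt 8 H) 36) || chkOne 9 deps code cert

theorem level8 : chkLevel 8 okFinal list8 certs8 = true := by decide +kernel

end Pool.Agent.Helper58.Metric
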