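import Pool.Agent.Helper58.Metric.Data

set_option maxRecDepth 100000

namespace Pool.Agent.Helper58.Metric

theorem cov2 : Cov 2 list2 := cov_step (m := 1) (L := list1) (css := certs1) (by norm_num)
  (by decide +kernel) cov_one

theorem cov3 : Cov 3 list3 := cov_step (css := certs2) (by norm_num) (by decide +kernel) cov2

theorem cov4 : Cov 4 list4 := cov_step (css := certs3) (by norm_num) (by decide +kernel) cov3

theorem cov5 : Cov 5 list5 := cov_step (css := certs4) (by norm_num) (by decide +kernel) cov4

theorem cov6 : Cov 6 list6 := cov_step (css := certs5) (by norm_num) (by decide +kernel) cov5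

theorem cov7 : Cov 7 list7 := cov_step (css := certs6) (by norm_num) (by decide +kernel) cov6

theorem cov8 : Cov 8 list8 := cov_step (css := certs7) (by norm_num) (by decide +kernel) cov7

end Pool.Agent.Helper58.Metric
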