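import Pool.Agent.Helper58.Metric.Count
import Pool.Agent.Helper58.Metric.Levels
import Pool.Agent.Helper58.Metric.Final

/-!
# No graph on `9` points has balanced triples forming a basis
-/

namespace Pool.Agent.Helper58.Metric

theorem adj_bal_old {H b : ℕ} (hH : H < 2 ^ (8 * (8 - 1) / 2)) {i j k : ℕ} (hij : i < j)
    (hjk : j < k) (hk : k < 8) :
    bal (adj (2 ^ (8 * (8 - 1) / 2) * (2 * b) + H)) i j k = bal (adj H) i j k := by
  unfold bal
  rw [adj_extend_old hH (by omega) (by omega) (by omega),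
    adj_extend_old hH (by omega) (by omega) (by omega),
    adj_extend_old hH (by omega) (by omega) (by omega)]

theorem cnt_nine {H b : ℕ} (hH : H < 2 ^ (8 * (8 - 1) / 2)) :
    cnt 9 (2 ^ (8 * (8 - 1) / 2) * (2 * b) + H) =
      cntNew (2 ^ (8 * (8 - 1) / 2) * (2 * b) + H) + cnt 8 H := by
  unfold cnt cntNew
  rw [sumLt_eq 9, Finset.sum_range_succ, sumLt_eq 8 (fun k => sumLt k fun j => sumLt j fun i =>
    Bool.toNat (bal (adj H) i j k)), add_comm]
  congr 1
  refine Finset.sum_congr rfl fun k hk => ?_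
  rw [sumLt_eq, sumLt_eq]
  refine Finset.sum_congr rfl fun j hj => ?_
  rw [sumLt_eq, sumLt_eq]
  refine Finset.sum_congr rfl fun i hi => ?_
  rw [Finset.mem_range] at hk hj hi
  rw [adj_bal_old hH hi hj hk]

theorem no_nine (G : ℕ → ℕ → Bool) (hG : ∀ i j, i ≠ j → G i j = G j i) (hI : Ind 9 G)
    (hE : ExtG 9 G) : False := by
  obtain ⟨H, b, cert, hH, h1, h2⟩ := exists_code (m := 8) (by norm_num) level8 cov8 hG hI
  have hI' := hI.of_rel h2
  have hE' := hE.of_rel h2
  have hc : cnt 9 (2 ^ (8 * (8 - 1) / 2) * (2 * b) + H) = 36 := by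
    rw [cnt_eq hI' hE']; rfl
  rw [cnt_nine hH] at hc
  unfold okFinal at h1
  rw [hc, Bool.or_eq_true] at h1
  rcases h1 with h1 | h1
  · exact absurd h1 (by decide)
  · obtain ⟨t, ht, h3⟩ := chkOne_sound h1
    exact not_ind_of_mem_deps ht (hI'.of_rel h3)

end Pool.Agent.Helper58.Metric
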