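import Pool.Agent.Helper58.Metric.Simple

/-!
# A simple vertex yields a signed complete graph whose balanced triples form a basis
-/

namespace Pool.Agent.Helper58.Metric

open Finset

variable {n : ℕ}

/-- every simple vertex of `m_n` (`n ≥ 4`) is `{1/3, 2/3}`-valued: there is a sign function whose
balanced triples are exactly the tight triangle inequalities -/
theorem Simple.exists_sign {v : Pair n → ℝ} (hv : Simple v) (hn : 4 ≤ n) :
    ∃ s : Fin n → Fin n → ℝ, (∀ i j, i ≠ j → IsSign (s i j)) ∧ (∀ i j, i ≠ j → s i j = s j i) ∧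
      (∀ i j, i ≠ j → coord (yof v) i j = -(s i j) / 3) ∧
      (∀ i j k a b c, T v i j k a b c → a = s i j ∧ b = s i k ∧ c = s j k) ∧
      (∀ i j k, i ≠ j → i ≠ k → j ≠ k → s i j * s i k * s j k = 1 →
        T v i j k (s i j) (s i k) (s j k)) := by
  have hcov : ∀ i j : Fin n, i ≠ j → ∃ a : ℝ, ∃ k b c, T v i j k a b c := by
    intro i j hij
    obtain ⟨k, a, b, c, h⟩ := hv.covered hij
    exact ⟨a, k, b, c, h⟩
  choose! s hs using hcov
  have huniq : ∀ i j k a b c, T v i j k a b c → a = s i j := by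
    intro i j k a b c h
    obtain ⟨l, b', c', h'⟩ := hs i j h.1
    exact hv.sign_unique hn h h'
  have hsign : ∀ i j, i ≠ j → IsSign (s i j) := by
    intro i j hij
    obtain ⟨l, b', c', h'⟩ := hs i j hij
    exact h'.2.2.2.1
  have hsymm : ∀ i j, i ≠ j → s i j = s j i := by
    intro i j hij
    obtain ⟨l, b', c', h'⟩ := hs i j hij
    exact huniq j i l _ _ _ h'.swap12
  have hall : ∀ i j k a b c, T v i j k a b c → a = s i j ∧ b = s i k ∧ c = s j k := by
    intro i j k a b c h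
    exact ⟨huniq _ _ _ _ _ _ h, huniq _ _ _ _ _ _ h.swap23,
      huniq _ _ _ _ _ _ h.swap12.swap23⟩
  have hy : ∀ i j, i ≠ j → coord (yof v) i j = -(s i j) / 3 := by
    let σ : Pair n → ℝ := fun p => s p.1.1 p.1.2
    have hσ : ∀ i j, i ≠ j → coord σ i j = s i j := by
      intro i j hij
      rcases lt_or_gt_of_ne hij with h | h
      · rw [coord_of_lt σ h]
      · rw [coord_comm, coord_of_lt σ h, hsymm i j hij]
    have h0 : yof v + (1 / 3 : ℝ) • σ = 0 := by
      apply hv.ext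
      intro ρ hρ
      obtain ⟨i, j, k, a, b, c, hT, rfl⟩ := exists_T hρ
      obtain ⟨h1, h2, h3⟩ := hall _ _ _ _ _ _ hT
      obtain ⟨hij, hik, hjk, ha, hb, hc, habc, he⟩ := hT
      rw [dotProduct_add, dotProduct_smul, row_dot hij hik hjk, row_dot hij hik hjk, he,
        hσ i j hij, hσ i k hik, hσ j k hjk, ← h1, ← h2, ← h3, ha.mul_self, hb.mul_self,
        hc.mul_self]
      norm_num
    intro i j hij
    have h1 : coord (yof v + (1 / 3 : ℝ) • σ) i j = 0 := by
      rw [h0]; unfold coord; split_ifs <;> rfl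
    rw [coord_add, coord_smul, hσ i j hij] at h1
    linarith
  refine ⟨s, hsign, hsymm, hy, hall, ?_⟩
  intro i j k hij hik hjk h
  refine ⟨hij, hik, hjk, hsign _ _ hij, hsign _ _ hik, hsign _ _ hjk, h, ?_⟩
  rw [hy i j hij, hy i k hik, hy j k hjk]
  have h1 := (hsign _ _ hij).mul_self
  have h2 := (hsign _ _ hik).mul_self
  have h3 := (hsign _ _ hjk).mul_self
  linarith

/-- the graph of the positive signs, on the natural numbers -/
noncomputable def graphOf (s : Fin n → Fin n → ℝ) (i j : ℕ) : Bool :=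
  if h : i < n ∧ j < n then (if s ⟨i, h.1⟩ ⟨j, h.2⟩ = 1 then true else false) else false

theorem graphOf_eq (s : Fin n → Fin n → ℝ) (i j : Fin n) :
    graphOf s i j = (if s i j = 1 then true else false) := by
  unfold graphOf
  rw [dif_pos ⟨i.2, j.2⟩]

theorem graphOf_bal {s : Fin n → Fin n → ℝ} (hs : ∀ i j, i ≠ j → IsSign (s i j))
    {i j k : Fin n} (hij : i ≠ j) (hik : i ≠ k) (hjk : j ≠ k) :
    bal (graphOf s) i j k = true ↔ s i j * s i k * s j k = 1 := by
  unfold bal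
  rw [graphOf_eq, graphOf_eq, graphOf_eq]
  rcases hs i j hij with h1 | h1 <;> rcases hs i k hik with h2 | h2 <;>
    rcases hs j k hjk with h3 | h3 <;> rw [h1, h2, h3] <;> norm_num

theorem Simple.exists_graph {v : Pair n → ℝ} (hv : Simple v) (hn : 4 ≤ n) :
    ∃ G : ℕ → ℕ → Bool, (∀ i j, i ≠ j → G i j = G j i) ∧ Ind n G ∧ ExtG n G := by
  obtain ⟨s, hsign, hsymm, -, hall, htight⟩ := hv.exists_sign hn
  refine ⟨graphOf s, ?_, ?_, ?_⟩
  · intro i j hij
    unfold graphOf
    by_cases h : i < n ∧ j < n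
    · rw [dif_pos h, dif_pos ⟨h.2, h.1⟩, hsymm ⟨i, h.1⟩ ⟨j, h.2⟩ (by
        intro he; exact hij (congrArg Fin.val he))]
    · rw [dif_neg h, dif_neg (fun h' => h ⟨h'.2, h'.1⟩)]
  · intro g
    classical
    -- the triple of a row
    let tr : (Pair n → ℝ) → Finset ℕ := fun ρ =>
      (Finset.univ.filter fun i : Fin n => ∃ j, coord ρ i j ≠ 0).image (fun i : Fin n => (i : ℕ))
    have htr : ∀ i j k a b c, T v i j k a b c →
        tr (row i j k a b c) = ({(i : ℕ), (j : ℕ), (k : ℕ)} : Finset ℕ) := by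
      intro i j k a b c hT
      obtain ⟨hij, hik, hjk, ha, hb, hc, habc, he⟩ := hT
      ext x
      simp only [tr, Finset.mem_image, Finset.mem_filter, Finset.mem_univ, true_and,
        Finset.mem_insert, Finset.mem_singleton]
      constructor
      · rintro ⟨p, ⟨q, hq⟩, rfl⟩
        by_contra hcon
        push Not at hcon
        apply hq
        rw [coord_row hij hik hjk, if_neg, if_neg, if_neg]
        · ring
        · rintro (⟨rfl, -⟩ | ⟨rfl, -⟩)
          · exact hcon.2.1 rfl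
          · exact hcon.2.2 rfl
        · rintro (⟨rfl, -⟩ | ⟨rfl, -⟩)
          · exact hcon.1 rfl
          · exact hcon.2.2 rfl
        · rintro (⟨rfl, -⟩ | ⟨rfl, -⟩)
          · exact hcon.1 rfl
          · exact hcon.2.1 rfl
      · rintro (rfl | rfl | rfl)
        · exact ⟨i, ⟨j, by rw [coord_row_ij hij hik hjk]; exact ha.ne_zero⟩, rfl⟩
        · exact ⟨j, ⟨k, by rw [coord_row_jk hij hik hjk]; exact hc.ne_zero⟩, rfl⟩
        · exact ⟨k, ⟨i, by rw [coord_comm, coord_row_ik hij hik hjk]; exact hb.ne_zero⟩, rfl⟩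
    obtain ⟨d, hd⟩ := hv.sur (fun ρ => g (tr ρ))
    let f : ℕ → ℕ → ℝ := fun i j => if h : i < n ∧ j < n ∧ i ≠ j then
      s ⟨i, h.1⟩ ⟨j, h.2.1⟩ * coord d ⟨i, h.1⟩ ⟨j, h.2.1⟩ else 0
    have hf : ∀ i j : Fin n, i ≠ j → f i j = s i j * coord d i j := by
      intro i j hij
      simp only [f]
      rw [dif_pos ⟨i.2, j.2, fun h => hij (Fin.ext h)⟩]
    refine ⟨f, ?_, ?_⟩
    · intro i j
      simp only [f]
      by_cases h : i < n ∧ j < n ∧ i ≠ j
      · rw [dif_pos h, dif_pos ⟨h.2.1, h.1, h.2.2.symm⟩, hsymm ⟨i, h.1⟩ ⟨j, h.2.1⟩ (by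
          intro he; exact h.2.2 (congrArg Fin.val he)), coord_comm]
      · rw [dif_neg h, dif_neg (fun h' => h ⟨h'.2.1, h'.1, h'.2.2.symm⟩)]
    · intro i j k hi hj hk hij hik hjk hb
      have hij' : (⟨i, hi⟩ : Fin n) ≠ ⟨j, hj⟩ := fun h => hij (congrArg Fin.val h)
      have hik' : (⟨i, hi⟩ : Fin n) ≠ ⟨k, hk⟩ := fun h => hik (congrArg Fin.val h)
      have hjk' : (⟨j, hj⟩ : Fin n) ≠ ⟨k, hk⟩ := fun h => hjk (congrArg Fin.val h)
      have hT := htight ⟨i, hi⟩ ⟨j, hj⟩ ⟨k, hk⟩ hij' hik' hjk'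
        ((graphOf_bal hsign hij' hik' hjk').1 hb)
      have h1 := hd _ hT.tight
      rw [row_dot hij' hik' hjk'] at h1
      simp only [htr _ _ _ _ _ _ hT] at h1
      rw [← h1]
      have e1 := hf ⟨i, hi⟩ ⟨j, hj⟩ hij'
      have e2 := hf ⟨i, hi⟩ ⟨k, hk⟩ hik'
      have e3 := hf ⟨j, hj⟩ ⟨k, hk⟩ hjk'
      simp only at e1 e2 e3
      rw [e1, e2, e3]
  · intro f hf hf2 i j hi hj hij
    let d : Pair n → ℝ := fun p => s p.1.1 p.1.2 * f p.1.1 p.1.2
    have hdc : ∀ i j : Fin n, i ≠ j → coord d i j = s i j * f i j := by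
      intro i j hij
      rcases lt_or_gt_of_ne hij with h | h
      · rw [coord_of_lt d h]
      · rw [coord_comm, coord_of_lt d h, hsymm i j hij, hf i j]
    have hd : d = 0 := by
      apply hv.ext
      intro ρ hρ
      obtain ⟨p, q, r, a, b, c, hT, rfl⟩ := exists_T hρ
      obtain ⟨h1, h2, h3⟩ := hall _ _ _ _ _ _ hT
      obtain ⟨hpq, hpr, hqr, ha, hb, hc, habc, he⟩ := hT
      rw [row_dot hpq hpr hqr, hdc p q hpq, hdc p r hpr, hdc q r hqr, ← h1, ← h2, ← h3]
      have h4 := hf2 p q r p.2 q.2 r.2 (fun h => hpq (Fin.ext h)) (fun h => hpr (Fin.ext h))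
        (fun h => hqr (Fin.ext h)) ((graphOf_bal hsign hpq hpr hqr).2 (by
          rw [← h1, ← h2, ← h3]; exact habc))
      have := ha.mul_self
      have := hb.mul_self
      have := hc.mul_self
      calc a * (a * f p q) + b * (b * f p r) + c * (c * f q r)
          = (a * a) * f p q + (b * b) * f p r + (c * c) * f q r := by ring
        _ = f p q + f p r + f q r := by rw [ha.mul_self, hb.mul_self, hc.mul_self]; ring
        _ = 0 := h4
    have hij' : (⟨i, hi⟩ : Fin n) ≠ ⟨j, hj⟩ := fun h => hij (congrArg Fin.val h)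
    have h5 := hdc ⟨i, hi⟩ ⟨j, hj⟩ hij'
    have h6 : coord d ⟨i, hi⟩ ⟨j, hj⟩ = 0 := by
      rw [hd]; unfold coord; split_ifs <;> rfl
    rw [h6] at h5
    rcases mul_eq_zero.1 h5.symm with h7 | h7
    · exact absurd h7 (hsign _ _ hij').ne_zero
    · exact h7

end Pool.Agent.Helper58.Metric
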