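import Pool.Agent.Helper58.Metric.Vertex

/-!
# Simple vertices: the sign function
-/

namespace Pool.Agent.Helper58.Metric

open Finset

variable {n : ℕ}

theorem yof_add_smul (x d : Pair n → ℝ) (ε : ℝ) : yof (x + ε • d) = yof x - (2 * ε) • d := by
  funext p; simp only [yof, Pi.add_apply, Pi.smul_apply, smul_eq_mul, Pi.sub_apply]; ring

/-- at a vertex the tight rows span -/
theorem ext_of_extreme {v : Pair n → ℝ} (hv : v ∈ (metricPolytope n).extremePoints ℝ)
    (d : Pair n → ℝ) (hd : ∀ ρ ∈ tight v, ρ ⬝ᵥ d = 0) : d = 0 := by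
  have hvm := hv.1
  -- a small step stays in the polytope
  have hev : ∀ ρ ∈ rows n, ∀ᶠ ε : ℝ in nhdsWithin 0 (Set.Ioi 0),
      -1 ≤ ρ ⬝ᵥ yof (v + ε • d) ∧ -1 ≤ ρ ⬝ᵥ yof (v + (-ε) • d) := by
    intro ρ hρ
    have h1 := (mem_iff v).1 hvm ρ hρ
    by_cases h2 : ρ ⬝ᵥ yof v = -1
    · have h3 := hd ρ ⟨hρ, h2⟩
      refine Filter.Eventually.of_forall fun ε => ?_
      rw [yof_add_smul, yof_add_smul, dotProduct_sub, dotProduct_sub, dotProduct_smul,
        dotProduct_smul, h3, h2]
      norm_num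
    · have h3 : -1 < ρ ⬝ᵥ yof v := lt_of_le_of_ne h1 (Ne.symm h2)
      have c1 : Filter.Tendsto (fun ε : ℝ => ρ ⬝ᵥ yof v - 2 * ε * (ρ ⬝ᵥ d))
          (nhds 0) (nhds (ρ ⬝ᵥ yof v - 2 * 0 * (ρ ⬝ᵥ d))) := by
        apply Continuous.tendsto; fun_prop
      have c2 : Filter.Tendsto (fun ε : ℝ => ρ ⬝ᵥ yof v + 2 * ε * (ρ ⬝ᵥ d))
          (nhds 0) (nhds (ρ ⬝ᵥ yof v + 2 * 0 * (ρ ⬝ᵥ d))) := by
        apply Continuous.tendsto; fun_prop
      have e1 := (c1.eventually (lt_mem_nhds (by simpa using h3))).filter_mono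
        (nhdsWithin_le_nhds (s := Set.Ioi (0 : ℝ)))
      have e2 := (c2.eventually (lt_mem_nhds (by simpa using h3))).filter_mono
        (nhdsWithin_le_nhds (s := Set.Ioi (0 : ℝ)))
      filter_upwards [e1, e2] with ε g1 g2
      rw [yof_add_smul, yof_add_smul, dotProduct_sub, dotProduct_sub, dotProduct_smul,
        dotProduct_smul, smul_eq_mul, smul_eq_mul]
      constructor
      · exact g1.le
      · have : ρ ⬝ᵥ yof v - 2 * -ε * ρ ⬝ᵥ d = ρ ⬝ᵥ yof v + 2 * ε * (ρ ⬝ᵥ d) := by ring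
        rw [this]; exact g2.le
  have hev2 : ∀ᶠ ε : ℝ in nhdsWithin 0 (Set.Ioi 0), ∀ ρ ∈ rows n,
      -1 ≤ ρ ⬝ᵥ yof (v + ε • d) ∧ -1 ≤ ρ ⬝ᵥ yof (v + (-ε) • d) :=
    (Filter.eventually_all_finite (rows_finite n)).2 hev
  obtain ⟨ε, hε, hpos⟩ := (hev2.and self_mem_nhdsWithin).exists
  have hpos' : (0 : ℝ) < ε := hpos
  have m1 : v + ε • d ∈ metricPolytope n := (mem_iff _).2 fun ρ hρ => (hε ρ hρ).1
  have m2 : v + (-ε) • d ∈ metricPolytope n := (mem_iff _).2 fun ρ hρ => (hε ρ hρ).2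
  have hseg : v ∈ openSegment ℝ (v + ε • d) (v + (-ε) • d) := by
    refine ⟨1 / 2, 1 / 2, by norm_num, by norm_num, by norm_num, ?_⟩
    funext p
    simp only [Pi.add_apply, Pi.smul_apply, smul_eq_mul]
    ring
  have := hv.2 m1 m2 hseg
  funext p
  have h := congrFun this p
  simp only [Pi.add_apply, Pi.smul_apply, smul_eq_mul] at h
  have h2 : ε * d p = 0 := by linarith
  rcases mul_eq_zero.1 h2 with h3 | h3
  · exact absurd h3 hpos'.ne'
  · simpa using h3

/-- if at most `dim` rows are tight at a vertex, then every right hand side is attained -/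
theorem sur_of_card {v : Pair n → ℝ} (hv : v ∈ (metricPolytope n).extremePoints ℝ)
    (hc : (tight v).ncard ≤ Fintype.card (Pair n)) (g : (Pair n → ℝ) → ℝ) :
    ∃ d : Pair n → ℝ, ∀ ρ ∈ tight v, ρ ⬝ᵥ d = g ρ := by
  classical
  have hfin := tight_finite v
  haveI : Fintype (tight v) := hfin.fintype
  let Φ : (Pair n → ℝ) →ₗ[ℝ] (tight v → ℝ) :=
    { toFun := fun d ρ => (ρ : Pair n → ℝ) ⬝ᵥ d
      map_add' := fun x y => by funext ρ; simp [dotProduct_add]
      map_smul' := fun c x => by funext ρ; simp [dotProduct_smul] }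
  have hinj : Function.Injective Φ := by
    rw [← LinearMap.ker_eq_bot, LinearMap.ker_eq_bot']
    intro d hd
    exact ext_of_extreme hv d fun ρ hρ => congrFun hd ⟨ρ, hρ⟩
  have hcard : Fintype.card (tight v) = (tight v).ncard := by
    rw [← Nat.card_coe_set_eq, Nat.card_eq_fintype_card]
  have h1 : Module.finrank ℝ (Pair n → ℝ) = Fintype.card (Pair n) :=
    Module.finrank_fintype_fun_eq_card ℝ
  have h2 : Module.finrank ℝ (tight v → ℝ) = Fintype.card (tight v) :=
    Module.finrank_fintype_fun_eq_card ℝ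
  have h3 := LinearMap.finrank_le_finrank_of_injective hinj
  have h4 : Module.finrank ℝ (Pair n → ℝ) = Module.finrank ℝ (tight v → ℝ) := by
    rw [h1, h2] at h3 ⊢; omega
  have hsurj := (LinearMap.injective_iff_surjective_of_finrank_eq_finrank h4).1 hinj
  obtain ⟨d, hd⟩ := hsurj (fun ρ => g ρ)
  exact ⟨d, fun ρ hρ => congrFun hd ⟨ρ, hρ⟩⟩

/-- the data of a simple vertex -/
structure Simple (v : Pair n → ℝ) : Prop where
  mem : v ∈ metricPolytope n
  ext : ∀ d : Pair n → ℝ, (∀ ρ ∈ tight v, ρ ⬝ᵥ d = 0) → d = 0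
  sur : ∀ g : (Pair n → ℝ) → ℝ, ∃ d : Pair n → ℝ, ∀ ρ ∈ tight v, ρ ⬝ᵥ d = g ρ

/-- the tight rows of a simple vertex satisfy no relation `ρ₁ + ρ₂ = ρ₃ + ρ₄` -/
theorem Simple.no_rel {v : Pair n → ℝ} (hv : Simple v) {ρ₁ ρ₂ ρ₃ ρ₄ : Pair n → ℝ}
    (h1 : ρ₁ ∈ tight v) (h2 : ρ₂ ∈ tight v) (h3 : ρ₃ ∈ tight v) (h4 : ρ₄ ∈ tight v)
    (n2 : ρ₁ ≠ ρ₂) (n3 : ρ₁ ≠ ρ₃) (n4 : ρ₁ ≠ ρ₄) (h : ρ₁ + ρ₂ = ρ₃ + ρ₄) : False := by
  classical
  obtain ⟨d, hd⟩ := hv.sur (fun ρ => if ρ = ρ₁ then 1 else 0)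
  have e := congrArg (fun ρ => ρ ⬝ᵥ d) h
  simp only [add_dotProduct, hd _ h1, hd _ h2, hd _ h3, hd _ h4, if_true,
    if_neg n2.symm, if_neg n3.symm, if_neg n4.symm] at e
  norm_num at e

/-- a tight triangle inequality -/
def T (v : Pair n → ℝ) (i j k : Fin n) (a b c : ℝ) : Prop :=
  i ≠ j ∧ i ≠ k ∧ j ≠ k ∧ IsSign a ∧ IsSign b ∧ IsSign c ∧ a * b * c = 1 ∧
    a * coord (yof v) i j + b * coord (yof v) i k + c * coord (yof v) j k = -1

theorem T.tight {v : Pair n → ℝ} {i j k : Fin n} {a b c : ℝ} (h : T v i j k a b c) :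
    row i j k a b c ∈ tight v := by
  obtain ⟨hij, hik, hjk, ha, hb, hc, habc, he⟩ := h
  exact ⟨⟨i, j, k, a, b, c, hij, hik, hjk, ha, hb, hc, habc, rfl⟩, by
    rw [row_dot hij hik hjk, he]⟩

theorem exists_T {v : Pair n → ℝ} {ρ : Pair n → ℝ} (h : ρ ∈ tight v) :
    ∃ i j k a b c, T v i j k a b c ∧ ρ = row i j k a b c := by
  obtain ⟨⟨i, j, k, a, b, c, hij, hik, hjk, ha, hb, hc, habc, rfl⟩, he⟩ := h
  rw [row_dot hij hik hjk] at he
  exact ⟨i, j, k, a, b, c, ⟨hij, hik, hjk, ha, hb, hc, habc, he⟩, rfl⟩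

theorem T.swap12 {v : Pair n → ℝ} {i j k : Fin n} {a b c : ℝ} (h : T v i j k a b c) :
    T v j i k a c b := by
  obtain ⟨hij, hik, hjk, ha, hb, hc, habc, he⟩ := h
  refine ⟨hij.symm, hjk, hik, ha, hc, hb, by rw [← habc]; ring, ?_⟩
  rw [coord_comm _ j i, ← he]; ring

theorem T.swap23 {v : Pair n → ℝ} {i j k : Fin n} {a b c : ℝ} (h : T v i j k a b c) :
    T v i k j b a c := by
  obtain ⟨hij, hik, hjk, ha, hb, hc, habc, he⟩ := h
  refine ⟨hik, hij, hjk.symm, hb, ha, hc, by rw [← habc]; ring, ?_⟩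
  rw [coord_comm _ k j, ← he]; ring

theorem ineq {v : Pair n → ℝ} (hv : v ∈ metricPolytope n) {i j k : Fin n} {a b c : ℝ}
    (hij : i ≠ j) (hik : i ≠ k) (hjk : j ≠ k) (ha : IsSign a) (hb : IsSign b) (hc : IsSign c)
    (habc : a * b * c = 1) :
    -1 ≤ a * coord (yof v) i j + b * coord (yof v) i k + c * coord (yof v) j k := by
  have := (mem_iff v).1 hv (row i j k a b c)
    ⟨i, j, k, a, b, c, hij, hik, hjk, ha, hb, hc, habc, rfl⟩
  rwa [row_dot hij hik hjk] at this

/-- no coordinate of a simple vertex is `0` or `1` -/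
theorem Simple.no_integral {v : Pair n → ℝ} (hv : Simple v) {i j k l : Fin n} (hij : i ≠ j)
    (hik : i ≠ k) (hil : i ≠ l) (hjk : j ≠ k) (hjl : j ≠ l) (hkl : k ≠ l) {a : ℝ}
    (ha : IsSign a) : a * coord (yof v) i j ≠ -1 := by
  intro h
  have one : IsSign (1 : ℝ) := Or.inl rfl
  have mone : IsSign (-1 : ℝ) := Or.inr rfl
  have key : ∀ m : Fin n, i ≠ m → j ≠ m → T v i j m a 1 a ∧ T v i j m a (-1) (-a) := by
    intro m him hjm
    have h1 := ineq hv.mem hij him hjm ha one ha (by rw [mul_one]; exact ha.mul_self)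
    have h2 := ineq hv.mem hij him hjm ha mone ha.neg (by
      have := ha.mul_self; nlinarith)
    exact ⟨⟨hij, him, hjm, ha, one, ha, by rw [mul_one]; exact ha.mul_self, by linarith⟩,
      ⟨hij, him, hjm, ha, mone, ha.neg, by have := ha.mul_self; nlinarith, by linarith⟩⟩
  obtain ⟨k1, k2⟩ := key k hik hjk
  obtain ⟨l1, l2⟩ := key l hil hjl
  have hz : ∀ b c : ℝ, coord (row i j l a b c) i k = 0 := by
    intro b c
    rw [coord_row hij hil hjl, if_neg, if_neg, if_neg]
    · ring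
    · rintro (⟨h, -⟩ | ⟨h, -⟩); exacts [hij h, hil h]
    · rintro (⟨-, h⟩ | ⟨h, -⟩); exacts [hkl h, hil h]
    · rintro (⟨-, h⟩ | ⟨h, -⟩); exacts [hjk h.symm, hij h]
  refine hv.no_rel k1.tight k2.tight l1.tight l2.tight ?_ ?_ ?_ ?_
  · intro h
    have := congrArg (fun ρ => coord ρ i k) h
    simp only [coord_row_ik hij hik hjk] at this
    norm_num at this
  · intro h
    have := congrArg (fun ρ => coord ρ i k) h
    simp only [coord_row_ik hij hik hjk, hz] at this
    norm_num at this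
  · intro h
    have := congrArg (fun ρ => coord ρ i k) h
    simp only [coord_row_ik hij hik hjk, hz] at this
    norm_num at this
  · unfold row
    module

/-- two tight triangle inequalities on triangles sharing the edge `ij` have the same sign
there -/
theorem Simple.sign_unique {v : Pair n → ℝ} (hv : Simple v) (hn : 4 ≤ n) {i j k l : Fin n}
    {a b c a' b' c' : ℝ} (h : T v i j k a b c) (h' : T v i j l a' b' c') : a = a' := by
  by_contra hne
  have hij := h.1
  have hik := h.2.1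
  have hjk := h.2.2.1
  have hil := h'.2.1
  have hjl := h'.2.2.1
  obtain ⟨-, -, -, ha, hb, hc, habc, he⟩ := h
  obtain ⟨-, -, -, ha', hb', hc', habc', he'⟩ := h'
  have haa : a' = -a := by
    rcases ha with rfl | rfl <;> rcases ha' with rfl | rfl
    · exact absurd rfl hne
    · rfl
    · norm_num
    · exact absurd rfl hne
  subst haa
  by_cases hkl : k = l
  · subst hkl
    -- a fourth index
    obtain ⟨m, hm⟩ : ∃ m : Fin n, m ∉ ({i, j, k} : Finset (Fin n)) := by
      by_contra hcon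
      push Not at hcon
      have h1 : Finset.univ ⊆ ({i, j, k} : Finset (Fin n)) := fun x _ => hcon x
      have h2 := Finset.card_le_card h1
      rw [Finset.card_univ, Fintype.card_fin] at h2
      have h3 := Finset.card_le_three (a := i) (b := j) (c := k)
      omega
    simp only [Finset.mem_insert, Finset.mem_singleton, not_or] at hm
    obtain ⟨hmi, hmj, hmk⟩ := hm
    have e2 : b * coord (yof v) i k + c * coord (yof v) j k + b' * coord (yof v) i k +
        c' * coord (yof v) j k = -2 := by linarith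
    rcases hb with rfl | rfl <;> rcases hc with rfl | rfl <;> rcases hb' with rfl | rfl <;>
      rcases hc' with rfl | rfl
    all_goals first
      | (exfalso; rcases ha with rfl | rfl <;> norm_num at habc habc'; done)
      | exact hv.no_integral hik hij (Ne.symm hmi) hjk.symm (Ne.symm hmk) (Ne.symm hmj)
          (Or.inl rfl : IsSign (1 : ℝ)) (by linarith)
      | exact hv.no_integral hik hij (Ne.symm hmi) hjk.symm (Ne.symm hmk) (Ne.symm hmj)
          (Or.inr rfl : IsSign (-1 : ℝ)) (by linarith)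
      | exact hv.no_integral hjk hij.symm (Ne.symm hmj) hik.symm (Ne.symm hmk) (Ne.symm hmi)
          (Or.inl rfl : IsSign (1 : ℝ)) (by linarith)
      | exact hv.no_integral hjk hij.symm (Ne.symm hmj) hik.symm (Ne.symm hmk) (Ne.symm hmi)
          (Or.inr rfl : IsSign (-1 : ℝ)) (by linarith)
  · -- the other two triangles of the `K_4`
    have hcc : c * c' = -(b * b') := by
      have h1 : b * c = a := by
        have := ha.mul_self
        have h2 : a * (a * b * c) = a := by rw [habc, mul_one]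
        calc b * c = a * a * (b * c) := by rw [this, one_mul]
          _ = a * (a * b * c) := by ring
          _ = a := h2
      have h2 : b' * c' = -a := by
        have := ha.mul_self
        have h2 : -a * (-a * b' * c') = -a := by rw [habc', mul_one]
        calc b' * c' = a * a * (b' * c') := by rw [this, one_mul]
          _ = -a * (-a * b' * c') := by ring
          _ = -a := h2
      have h3 : (b * b') * (c * c') = -1 := by
        calc (b * b') * (c * c') = (b * c) * (b' * c') := by ring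
          _ = -(a * a) := by rw [h1, h2]; ring
          _ = -1 := by rw [ha.mul_self]
      have h4 := (hb.mul hb').mul_self
      calc c * c' = (b * b') * (b * b') * (c * c') := by rw [h4, one_mul]
        _ = (b * b') * ((b * b') * (c * c')) := by ring
        _ = -(b * b') := by rw [h3]; ring
    have p1 : b * b' * (b * b') = 1 := (hb.mul hb').mul_self
    have p2 : c * c' * (c * c') = 1 := (hc.mul hc').mul_self
    have i1 := ineq hv.mem hik hil hkl hb hb' (hb.mul hb') p1
    have i2 := ineq hv.mem hjk hjl hkl hc hc' (hc.mul hc') p2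
    rw [hcc] at i2
    have t1 : T v i k l b b' (b * b') := ⟨hik, hil, hkl, hb, hb', hb.mul hb', p1, by linarith⟩
    have t2 : T v j k l c c' (c * c') := ⟨hjk, hjl, hkl, hc, hc', hc.mul hc', p2, by
      rw [hcc]; linarith⟩
    have t3 : T v i j k a b c := ⟨hij, hik, hjk, ha, hb, hc, habc, he⟩
    have t4 : T v i j l (-a) b' c' := ⟨hij, hil, hjl, ha', hb', hc', habc', he'⟩
    have z1 : coord (row i k l b b' (b * b')) i j = 0 := by
      rw [coord_row hik hil hkl, if_neg, if_neg, if_neg]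
      · ring
      · rintro (⟨h, -⟩ | ⟨h, -⟩); exacts [hik h, hil h]
      · rintro (⟨-, h⟩ | ⟨h, -⟩); exacts [hjl h, hil h]
      · rintro (⟨-, h⟩ | ⟨h, -⟩); exacts [hjk h, hik h]
    have z2 : coord (row j k l c c' (c * c')) i j = 0 := by
      rw [coord_row hjk hjl hkl, if_neg, if_neg, if_neg]
      · ring
      · rintro (⟨h, -⟩ | ⟨h, -⟩); exacts [hik h, hil h]
      · rintro (⟨h, -⟩ | ⟨h, -⟩); exacts [hij h, hil h]
      · rintro (⟨h, -⟩ | ⟨h, -⟩); exacts [hij h, hik h]
    refine hv.no_rel t3.tight t4.tight t1.tight t2.tight ?_ ?_ ?_ ?_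
    · intro h
      have := congrArg (fun ρ => coord ρ i j) h
      simp only [coord_row_ij hij hik hjk, coord_row_ij hij hil hjl] at this
      exact hne this
    · intro h
      have := congrArg (fun ρ => coord ρ i j) h
      simp only [coord_row_ij hij hik hjk, z1] at this
      exact ha.ne_zero this
    · intro h
      have := congrArg (fun ρ => coord ρ i j) h
      simp only [coord_row_ij hij hik hjk, z2] at this
      exact ha.ne_zero this
    · rw [hcc]
      unfold row
      module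

/-- every pair of indices is covered by a tight triangle inequality -/
theorem Simple.covered {v : Pair n → ℝ} (hv : Simple v) {i j : Fin n} (hij : i ≠ j) :
    ∃ k a b c, T v i j k a b c := by
  by_contra hcon
  push Not at hcon
  have h0 : (E i j : Pair n → ℝ) = 0 := by
    apply hv.ext
    intro ρ hρ
    obtain ⟨p, q, r, a, b, c, hT, rfl⟩ := exists_T hρ
    rw [row_dot hT.1 hT.2.1 hT.2.2.1, coord_E hij, coord_E hij, coord_E hij, if_neg, if_neg,
      if_neg]
    · ring
    · rintro (⟨rfl, rfl⟩ | ⟨rfl, rfl⟩)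
      · exact hcon _ _ _ _ hT.swap12.swap23.swap12.swap23.swap12.swap23.swap12.swap23
      · exact hcon _ _ _ _ hT.swap12.swap23.swap12
    · rintro (⟨rfl, rfl⟩ | ⟨rfl, rfl⟩)
      · exact hcon _ _ _ _ hT.swap23
      · exact hcon _ _ _ _ hT.swap23.swap12
    · rintro (⟨rfl, rfl⟩ | ⟨rfl, rfl⟩)
      · exact hcon _ _ _ _ hT
      · exact hcon _ _ _ _ hT.swap12
  have h1 := coord_E hij i j
  rw [h0, if_pos (Or.inl ⟨rfl, rfl⟩)] at h1
  have h2 : coord (0 : Pair n → ℝ) i j = 0 := by unfold coord; split_ifs <;> rfl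
  rw [h2] at h1
  norm_num at h1

end Pool.Agent.Helper58.Metric
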