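import Pool.Agent.Helper58.Metric.Defs
import Pool.Agent.Helper58.Metric.Core

/-!
# Simple vertices of the metric polytope come from signed complete graphs
-/

namespace Pool.Agent.Helper58.Metric

open Finset

variable {n : ℕ}

theorem coord_comm (x : Pair n → ℝ) (i j : Fin n) : coord x i j = coord x j i := by
  unfold coord
  rcases lt_trichotomy i j with h | h | h
  · rw [dif_pos h, dif_neg (not_lt.2 h.le), dif_pos h]
  · subst h; rfl
  · rw [dif_neg (not_lt.2 h.le), dif_pos h, dif_pos h]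

theorem coord_of_lt (x : Pair n → ℝ) {i j : Fin n} (h : i < j) : coord x i j = x ⟨(i, j), h⟩ := by
  unfold coord; rw [dif_pos h]

theorem coord_pair (x : Pair n → ℝ) (p : Pair n) : coord x p.1.1 p.1.2 = x p := by
  rw [coord_of_lt x p.2]

theorem coord_add (x y : Pair n → ℝ) (i j : Fin n) :
    coord (x + y) i j = coord x i j + coord y i j := by
  unfold coord; split_ifs <;> simp

theorem coord_smul (c : ℝ) (x : Pair n → ℝ) (i j : Fin n) :
    coord (c • x) i j = c * coord x i j := by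
  unfold coord; split_ifs <;> simp

/-- the indicator of the pair `i, j` -/
def E (i j : Fin n) : Pair n → ℝ := fun p => if (p.1.1 = i ∧ p.1.2 = j) ∨ (p.1.1 = j ∧ p.1.2 = i)
  then 1 else 0

theorem E_comm (i j : Fin n) : (E i j : Pair n → ℝ) = E j i := by
  funext p; unfold E; congr 1; rw [or_comm]

theorem coord_E {i j : Fin n} (hij : i ≠ j) (a b : Fin n) :
    coord (E i j) a b = if (a = i ∧ b = j) ∨ (a = j ∧ b = i) then 1 else 0 := by
  unfold coord E
  rcases lt_trichotomy a b with h | h | h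
  · rw [dif_pos h]
  · subst h
    rw [dif_neg (lt_irrefl _), dif_neg (lt_irrefl _), if_neg]
    rintro (⟨h1, h2⟩ | ⟨h1, h2⟩)
    · exact hij (h1 ▸ h2)
    · exact hij (h2 ▸ h1)
  · rw [dif_neg (not_lt.2 h.le), dif_pos h]
    congr 1
    simp only [eq_iff_iff]
    tauto

theorem E_dot {i j : Fin n} (hij : i ≠ j) (x : Pair n → ℝ) : E i j ⬝ᵥ x = coord x i j := by
  unfold dotProduct
  rcases lt_or_gt_of_ne hij with h | h
  · rw [Finset.sum_eq_single (⟨(i, j), h⟩ : Pair n)]
    · rw [coord_of_lt x h]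
      simp [E]
    · intro p _ hp
      have : E i j p = 0 := by
        unfold E
        rw [if_neg]
        rintro (⟨h1, h2⟩ | ⟨h1, h2⟩)
        · exact hp (Subtype.ext (Prod.ext h1 h2))
        · have := p.2; rw [h1, h2] at this; exact absurd this (not_lt.2 h.le)
      rw [this, zero_mul]
    · intro h; exact absurd (Finset.mem_univ _) h
  · rw [Finset.sum_eq_single (⟨(j, i), h⟩ : Pair n)]
    · rw [coord_comm, coord_of_lt x h]
      simp [E]
    · intro p _ hp
      have : E i j p = 0 := by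
        unfold E
        rw [if_neg]
        rintro (⟨h1, h2⟩ | ⟨h1, h2⟩)
        · have := p.2; rw [h1, h2] at this; exact absurd this (not_lt.2 h.le)
        · exact hp (Subtype.ext (Prod.ext h1 h2))
      rw [this, zero_mul]
    · intro h; exact absurd (Finset.mem_univ _) h

/-- the row of a triangle inequality -/
def row (i j k : Fin n) (a b c : ℝ) : Pair n → ℝ := a • E i j + b • E i k + c • E j k

theorem row_dot {i j k : Fin n} (hij : i ≠ j) (hik : i ≠ k) (hjk : j ≠ k) (a b c : ℝ)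
    (x : Pair n → ℝ) :
    row i j k a b c ⬝ᵥ x = a * coord x i j + b * coord x i k + c * coord x j k := by
  unfold row
  rw [add_dotProduct, add_dotProduct, smul_dotProduct, smul_dotProduct, smul_dotProduct,
    E_dot hij, E_dot hik, E_dot hjk]
  simp

theorem row_swap12 (i j k : Fin n) (a b c : ℝ) : row i j k a b c = row j i k a c b := by
  unfold row; rw [E_comm i j]; abel

theorem row_swap23 (i j k : Fin n) (a b c : ℝ) : row i j k a b c = row i k j b a c := by
  unfold row; rw [E_comm j k]; abel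

/-- a sign -/
def IsSign (a : ℝ) : Prop := a = 1 ∨ a = -1

theorem IsSign.mul_self {a : ℝ} (h : IsSign a) : a * a = 1 := by
  rcases h with rfl | rfl <;> norm_num

theorem IsSign.ne_zero {a : ℝ} (h : IsSign a) : a ≠ 0 := by
  rcases h with rfl | rfl <;> norm_num

theorem IsSign.neg {a : ℝ} (h : IsSign a) : IsSign (-a) := by
  rcases h with rfl | rfl
  · right; rfl
  · left; norm_num

theorem IsSign.mul {a b : ℝ} (h : IsSign a) (h' : IsSign b) : IsSign (a * b) := by
  rcases h with rfl | rfl <;> rcases h' with rfl | rfl <;> simp [IsSign]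

/-- the rows of the triangle inequalities -/
def rows (n : ℕ) : Set (Pair n → ℝ) :=
  {ρ | ∃ i j k : Fin n, ∃ a b c : ℝ, i ≠ j ∧ i ≠ k ∧ j ≠ k ∧ IsSign a ∧ IsSign b ∧ IsSign c ∧
    a * b * c = 1 ∧ ρ = row i j k a b c}

theorem rows_finite (n : ℕ) : (rows n).Finite := by
  let S : Finset ℝ := {1, -1}
  have hS : ∀ a, IsSign a → a ∈ S := by
    intro a ha; rcases ha with rfl | rfl <;> simp [S]
  refine Set.Finite.subset (Set.Finite.image (fun t : (Fin n × Fin n × Fin n) × (ℝ × ℝ × ℝ) =>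
    row t.1.1 t.1.2.1 t.1.2.2 t.2.1 t.2.2.1 t.2.2.2)
    ((Finset.univ : Finset (Fin n × Fin n × Fin n)) ×ˢ (S ×ˢ S ×ˢ S)).finite_toSet) ?_
  rintro ρ ⟨i, j, k, a, b, c, -, -, -, ha, hb, hc, -, rfl⟩
  refine ⟨((i, j, k), (a, b, c)), ?_, rfl⟩
  simp only [Finset.coe_product, Set.mem_prod, Finset.mem_coe, Finset.mem_univ, true_and]
  exact ⟨hS a ha, hS b hb, hS c hc⟩

/-- in terms of `y = 1 - 2 x`, the triangle inequalities are `ρ ⬝ y ≥ -1` -/
def yof (x : Pair n → ℝ) : Pair n → ℝ := fun p => 1 - 2 * x p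

theorem coord_yof (x : Pair n → ℝ) {i j : Fin n} (hij : i ≠ j) :
    coord (yof x) i j = 1 - 2 * coord x i j := by
  unfold coord yof
  rcases lt_or_gt_of_ne hij with h | h
  · rw [dif_pos h, dif_pos h]
  · rw [dif_neg (not_lt.2 h.le), dif_neg (not_lt.2 h.le), dif_pos h, dif_pos h]

theorem mem_iff (x : Pair n → ℝ) :
    x ∈ metricPolytope n ↔ ∀ ρ ∈ rows n, -1 ≤ ρ ⬝ᵥ yof x := by
  constructor
  · rintro hx ρ ⟨i, j, k, a, b, c, hij, hik, hjk, ha, hb, hc, habc, rfl⟩
    rw [row_dot hij hik hjk, coord_yof x hij, coord_yof x hik, coord_yof x hjk]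
    have h1 := hx i j k hij hik hjk
    have h2 := hx i k j hik hij hjk.symm
    have h3 := hx j k i hjk hij.symm hik.symm
    rw [coord_comm x k j] at h2
    rw [coord_comm x j i, coord_comm x k i] at h3
    rcases ha with rfl | rfl <;> rcases hb with rfl | rfl <;> rcases hc with rfl | rfl <;>
      first
      | (exfalso; norm_num at habc; done)
      | linarith [h1.1, h1.2, h2.1, h2.2, h3.1, h3.2]
  · intro h i j k hij hik hjk
    have h1 := h (row i j k 1 (-1) (-1)) ⟨i, j, k, 1, -1, -1, hij, hik, hjk, Or.inl rfl,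
      Or.inr rfl, Or.inr rfl, by norm_num, rfl⟩
    have h2 := h (row i j k 1 1 1) ⟨i, j, k, 1, 1, 1, hij, hik, hjk, Or.inl rfl,
      Or.inl rfl, Or.inl rfl, by norm_num, rfl⟩
    rw [row_dot hij hik hjk, coord_yof x hij, coord_yof x hik, coord_yof x hjk] at h1 h2
    constructor <;> linarith

/-- the tight rows at `v` -/
def tight (v : Pair n → ℝ) : Set (Pair n → ℝ) := {ρ | ρ ∈ rows n ∧ ρ ⬝ᵥ yof v = -1}

theorem tight_finite (v : Pair n → ℝ) : (tight v).Finite :=
  (rows_finite n).subset fun _ h => h.1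

/-- the face of a row -/
def face (ρ : Pair n → ℝ) : Set (Pair n → ℝ) := {x | x ∈ metricPolytope n ∧ ρ ⬝ᵥ yof x = -1}

theorem coord_row {i j k : Fin n} (hij : i ≠ j) (hik : i ≠ k) (hjk : j ≠ k) (a b c : ℝ)
    (p q : Fin n) : coord (row i j k a b c) p q =
      a * (if (p = i ∧ q = j) ∨ (p = j ∧ q = i) then 1 else 0) +
      b * (if (p = i ∧ q = k) ∨ (p = k ∧ q = i) then 1 else 0) +
      c * (if (p = j ∧ q = k) ∨ (p = k ∧ q = j) then 1 else 0) := by
  unfold row
  rw [coord_add, coord_add, coord_smul, coord_smul, coord_smul, coord_E hij, coord_E hik,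
    coord_E hjk]

theorem coord_row_ij {i j k : Fin n} (hij : i ≠ j) (hik : i ≠ k) (hjk : j ≠ k) (a b c : ℝ) :
    coord (row i j k a b c) i j = a := by
  rw [coord_row hij hik hjk, if_pos (Or.inl ⟨rfl, rfl⟩), if_neg (by
    rintro (⟨-, h⟩ | ⟨h, -⟩); exacts [hjk h, hik h]), if_neg (by
    rintro (⟨h, -⟩ | ⟨h, -⟩); exacts [hij h, hik h])]
  ring

theorem coord_row_ik {i j k : Fin n} (hij : i ≠ j) (hik : i ≠ k) (hjk : j ≠ k) (a b c : ℝ) :
    coord (row i j k a b c) i k = b := by
  rw [row_swap23, coord_row_ij hik hij hjk.symm]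

theorem coord_row_jk {i j k : Fin n} (hij : i ≠ j) (hik : i ≠ k) (hjk : j ≠ k) (a b c : ℝ) :
    coord (row i j k a b c) j k = c := by
  rw [row_swap12, row_swap23, coord_row_ij hjk hij.symm hik.symm]

theorem row_dot_self {ρ : Pair n → ℝ} (h : ρ ∈ rows n) : ρ ⬝ᵥ ρ = 3 := by
  obtain ⟨i, j, k, a, b, c, hij, hik, hjk, ha, hb, hc, habc, rfl⟩ := h
  rw [row_dot hij hik hjk, coord_row_ij hij hik hjk, coord_row_ik hij hik hjk,
    coord_row_jk hij hik hjk, ha.mul_self, hb.mul_self, hc.mul_self]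
  norm_num

theorem row_dot_le {ρ σ : Pair n → ℝ} (h : ρ ∈ rows n) (h' : σ ∈ rows n) :
    σ ⬝ᵥ ρ ≤ 3 ∧ (σ ⬝ᵥ ρ = 3 → σ = ρ) := by
  have h1 : (σ - ρ) ⬝ᵥ (σ - ρ) = 6 - 2 * (σ ⬝ᵥ ρ) := by
    rw [sub_dotProduct, dotProduct_sub, dotProduct_sub, row_dot_self h, row_dot_self h',
      dotProduct_comm ρ σ]
    ring
  have h2 : 0 ≤ (σ - ρ) ⬝ᵥ (σ - ρ) := by
    unfold dotProduct
    exact Finset.sum_nonneg fun p _ => mul_self_nonneg _
  refine ⟨by linarith, fun h3 => ?_⟩
  have h4 : (σ - ρ) ⬝ᵥ (σ - ρ) = 0 := by rw [h1, h3]; norm_num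
  exact sub_eq_zero.1 (dotProduct_self_eq_zero.1 h4)

theorem face_injOn : Set.InjOn (face (n := n)) (rows n) := by
  intro ρ hρ σ hσ h
  -- the witness in the relative interior of `face ρ`
  let w : Pair n → ℝ := fun p => (1 + ρ p / 3) / 2
  have hw : yof w = (-(1 / 3) : ℝ) • ρ := by
    funext p; simp only [yof, w, Pi.smul_apply, smul_eq_mul]; ring
  have hw1 : w ∈ face ρ := by
    refine ⟨(mem_iff w).2 fun τ hτ => ?_, ?_⟩
    · rw [hw, dotProduct_smul, smul_eq_mul]
      have := (row_dot_le hρ hτ).1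
      linarith
    · rw [hw, dotProduct_smul, smul_eq_mul, row_dot_self hρ]; norm_num
  rw [h] at hw1
  have h2 := hw1.2
  rw [hw, dotProduct_smul, smul_eq_mul] at h2
  exact ((row_dot_le hρ hσ).2 (by linarith)).symm

theorem face_mem_facets {ρ : Pair n → ℝ} (h : ρ ∈ rows n) : face ρ ∈ facets n := by
  obtain ⟨i, j, k, a, b, c, hij, hik, hjk, ha, hb, hc, habc, rfl⟩ := h
  have key : ∀ x : Pair n → ℝ, row i j k a b c ⬝ᵥ yof x = (a + b + c) -
      2 * (a * coord x i j + b * coord x i k + c * coord x j k) := by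
    intro x
    rw [row_dot hij hik hjk, coord_yof x hij, coord_yof x hik, coord_yof x hjk]; ring
  rcases ha with rfl | rfl <;> rcases hb with rfl | rfl <;> rcases hc with rfl | rfl
  · refine ⟨i, j, k, hij, hik, hjk, Or.inr ?_⟩
    ext x
    simp only [face, Set.mem_ofPred_eq, key]
    constructor <;> rintro ⟨h1, h2⟩ <;> exact ⟨h1, by linarith⟩
  · norm_num at habc
  · norm_num at habc
  · refine ⟨i, j, k, hij, hik, hjk, Or.inl ?_⟩
    ext x
    simp only [face, Set.mem_ofPred_eq, key]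
    constructor <;> rintro ⟨h1, h2⟩ <;> exact ⟨h1, by linarith⟩
  · norm_num at habc
  · refine ⟨i, k, j, hik, hij, hjk.symm, Or.inl ?_⟩
    ext x
    simp only [face, Set.mem_ofPred_eq, key, coord_comm x k j]
    constructor <;> rintro ⟨h1, h2⟩ <;> exact ⟨h1, by linarith⟩
  · refine ⟨j, k, i, hjk, hij.symm, hik.symm, Or.inl ?_⟩
    ext x
    simp only [face, Set.mem_ofPred_eq, key, coord_comm x j i, coord_comm x k i]
    constructor <;> rintro ⟨h1, h2⟩ <;> exact ⟨h1, by linarith⟩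
  · norm_num at habc

theorem facets_finite (n : ℕ) : (facets n).Finite := by
  refine Set.Finite.subset (Set.finite_range (fun t : (Fin n × Fin n × Fin n) × Bool =>
    if t.2 then {x : Pair n → ℝ | x ∈ metricPolytope n ∧
        coord x t.1.1 t.1.2.1 - coord x t.1.1 t.1.2.2 - coord x t.1.2.1 t.1.2.2 = 0}
      else {x : Pair n → ℝ | x ∈ metricPolytope n ∧
        coord x t.1.1 t.1.2.1 + coord x t.1.1 t.1.2.2 + coord x t.1.2.1 t.1.2.2 = 2})) ?_
  rintro F ⟨i, j, k, -, -, -, h | h⟩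
  · exact ⟨((i, j, k), true), by rw [h]; simp⟩
  · exact ⟨((i, j, k), false), by rw [h]; simp⟩

theorem ncard_tight_le {v : Pair n → ℝ} (hv : v ∈ metricPolytope n) :
    (tight v).ncard ≤ incidence v := by
  unfold incidence
  refine Set.ncard_le_ncard_of_injOn face ?_ (face_injOn.mono fun _ h => h.1)
    ((facets_finite n).subset fun _ h => h.1)
  rintro ρ ⟨h1, h2⟩
  exact ⟨face_mem_facets h1, hv, h2⟩

end Pool.Agent.Helper58.Metric
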